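import Pool.Agent.Lib.MP_9277c3_lc.NS.Ops
import Pool.Agent.Lib.MP_9277c3_lc.NC.Time
import Pool.Agent.Lib.MP_9277c3_lc.NS.CtlOK
import Pool.Agent.Lib.MP_9277c3_lc.NS.Main
import Pool.Agent.Lib.MP_9277c3_lc.NC.CompT
import Pool.Agent.Lib.MP_9277c3_lc.NS.Top

section
/-!
# Arrays: the time of the programs

The digit with the number `e` is read or written in time `6 * e + 12`.
-/
set_option autoImplicit false

namespace Pool.Agent.Lib.MP_9277c3_lc.NS

open Finset CM NC

section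

variable {α R F : Type} {x : List α} {cc : Cell α → ℕ} {A : ℕ} {body : F → NStmt R F} {k : ℕ}

theorem run_nilT {n : ℕ} {s : R → ℕ} {u : ℕ → Bool} :
    RunT x cc A body k (n + 1) (lf (sqn [])) s u s u := RunT.skip _ _ _ _

theorem run_consT {n m N : ℕ} {b : AStmt R Empty} {l : List (AStmt R Empty)} {s t r : R → ℕ}
    {u v w : ℕ → Bool} (h₁ : RunT x cc A body k n (lf b) s u t v)
    (h₂ : RunT x cc A body k m (lf (sqn l)) t v r w) (hN : n + m + 1 ≤ N) :
    RunT x cc A body k N (lf (sqn (b :: l))) s u r w :=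
  (RunT.seq _ _ _ _ _ _ _ _ _ _ _ h₁ h₂).mono le_rfl hN le_rfl

theorem run_setT {n : ℕ} {q : R} {ex : Exp R} {l : List (AStmt R Empty)} {s t : R → ℕ}
    {u v : ℕ → Bool} (c : ℕ) (hn : ex.eval x cc s = c) (hA : c < A)
    (h₂ : RunT x cc A body k n (lf (sqn l)) (upd s q c) u t v) :
    RunT x cc A body k (n + 2) (lf (sqn (set q ex :: l))) s u t v := by
  have e1 : (renE id ex).eval x cc s = c := by rw [eval_renE]; exact hn
  subst hn
  have h1 := RunT.asg (body := body) (A := A) k 0 q (renE id ex) s u (by rw [e1]; exact hA)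
  rw [e1] at h1
  exact (RunT.seq k 1 n _ _ _ _ _ _ _ _ h1 h₂).mono le_rfl (by omega) le_rfl

/-- The power is computed. -/
theorem run_powT {pw i : R} {b idx : Exp R} (hip : i ≠ pw) {s : R → ℕ} {B e : ℕ} (hB : 1 ≤ B)
    (hb : ∀ n p, b.eval x cc (upd (upd s i n) pw p) = B) (hidx : idx.eval x cc s = e)
    (he : e < A) (hA : B ^ e < A) (u : ℕ → Bool) :
    RunT x cc A body k (6 * e + 8) (lf (powC pw i b idx)) s u (upd (upd s i 0) pw (B ^ e)) u := by
  have hp : ∀ j ≤ e, B ^ j < A := fun j hj => (Nat.pow_le_pow_right hB hj).trans_lt hA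
  have hloop := RunT.seqLoop (x := x) (cc := cc) (A := A) (body := body) (k := k) (c := 5) i
    (lf (sqn [set pw (Exp.var pw * b), set i (Exp.var i - 1)]))
    (fun n => upd (upd s i (e - n)) pw (B ^ n)) (fun _ => u) e
    (fun n hn => by
      simp only [upd_ne hip, upd_self]
      omega) (by
      simp only [upd_ne hip, upd_self, Nat.sub_self]) (fun n hn => by
      refine run_setT (B ^ (n + 1)) ?_ (hp _ hn) (run_setT (e - (n + 1)) ?_ (by omega)
        ((run_nilT (n := 0)).cast ?_))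
      · rw [eval_mul, eval_var, upd_self, hb, pow_succ]
      · rw [eval_sub, eval_var, eval_one, upd_ne hip, upd_ne hip, upd_self, Nat.sub_sub]
      · rw [upd_upd, upd_comm (Ne.symm hip), upd_upd])
  simp only [Nat.sub_self, pow_zero, Nat.sub_zero] at hloop
  have h1 : RunT x cc A body k (e * (5 + 1) + 1 + 1 + 1 + 2 + 2) (lf (powC pw i b idx)) s u
      (upd (upd s i 0) pw (B ^ e)) u :=
    run_setT e hidx he (run_setT 1 rfl (by have := hp 0 (Nat.zero_le _); simpa using this)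
      (run_consT hloop (run_nilT (n := 0)) (by omega)))
  exact h1.mono le_rfl (by omega) le_rfl

/-- A digit is read. -/
theorem run_getT' {dst arr pw i : R} {b idx : Exp R} (hip : i ≠ pw) (hai : arr ≠ i) (hap : arr ≠ pw)
    {s : R → ℕ} {B e : ℕ} (hB : 1 ≤ B) (hb : ∀ n p, b.eval x cc (upd (upd s i n) pw p) = B)
    (hidx : idx.eval x cc s = e) (he : e < A) (hA : B ^ e < A) (hBA : B ≤ A) (hdp : dst ≠ pw)
    (u : ℕ → Bool) :
    RunT x cc A body k (6 * e + 14) (lf (getC dst arr pw i b idx)) s u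
      (upd (upd (upd s i 0) pw 0) dst (s arr / B ^ e % B)) u := by
  refine run_consT (m := 5) (run_powT hip hB hb hidx he hA u) ?_ (by omega)
  refine run_setT (s arr / B ^ e % B) ?_ ((Nat.mod_lt _ hB).trans_le hBA)
    (run_setT 0 rfl (by omega) ((run_nilT (n := 0)).cast ?_))
  · rw [eval_mod, eval_div, hb, eval_var, eval_var, upd_self, upd_ne hap, upd_ne hai]
  · rw [upd_comm hdp, upd_upd]

/-- A digit is written. -/
theorem run_putT' {arr pw i : R} {b idx val : Exp R} (hip : i ≠ pw) (hai : arr ≠ i)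
    (hap : arr ≠ pw)
    {s : R → ℕ} {B e v : ℕ} (hB : 1 ≤ B) (hb : ∀ n p, b.eval x cc (upd (upd s i n) pw p) = B)
    (hidx : idx.eval x cc s = e) (hval : ∀ p, val.eval x cc (upd (upd s i 0) pw p) = v)
    (he : e < A) (hA : B ^ e < A) (hv : s arr - s arr / B ^ e % B * B ^ e + v * B ^ e < A)
    (u : ℕ → Bool) :
    RunT x cc A body k (6 * e + 14) (lf (putC arr pw i b idx val)) s u
      (upd (upd (upd s i 0) pw 0) arr (s arr - s arr / B ^ e % B * B ^ e + v * B ^ e)) u := by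
  refine run_consT (m := 5) (run_powT hip hB hb hidx he hA u) ?_ (by omega)
  refine run_setT _ ?_ hv (run_setT 0 rfl (by omega) ((run_nilT (n := 0)).cast ?_))
  · simp only [eval_add, eval_sub, eval_mul, eval_mod, eval_div, hb, hval, eval_var, upd_self,
      upd_ne hap, upd_ne hai]
  · rw [upd_comm hap, upd_upd]

/-- A digit of an array is read. -/
theorem run_get_encT {dst arr pw i : R} {b idx : Exp R} (hip : i ≠ pw) (hai : arr ≠ i)
    (hap : arr ≠ pw) {s : R → ℕ} {B n e : ℕ} {f : ℕ → ℕ} (hB : 1 ≤ B)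
    (hb : ∀ n p, b.eval x cc (upd (upd s i n) pw p) = B) (hidx : idx.eval x cc s = e)
    (hi0 : s i = 0) (hp0 : s pw = 0) (hf : ∀ i < n, f i < B) (harr : s arr = enc B n f)
    (he : e < n) (hA : B ^ n ≤ A) (hnA : n ≤ A) (hB2 : 2 ≤ B) (hdp : dst ≠ pw) (u : ℕ → Bool) :
    RunT x cc A body k (6 * n + 14) (lf (getC dst arr pw i b idx)) s u (upd s dst (f e)) u := by
  have h1 : B ^ e < B ^ n := Nat.pow_lt_pow_right hB2 he
  have h2 : B ≤ B ^ n := Nat.le_self_pow (by omega) _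
  have h := run_getT' (x := x) (cc := cc) (A := A) (body := body) (k := k) (dst := dst)
    (arr := arr) hip hai hap hB hb hidx (by omega) (by omega) (by omega) hdp u
  rw [upd_eq_self' hi0, upd_eq_self' hp0, harr, enc_digit hB hf he] at h
  exact h.mono le_rfl (by omega) le_rfl

/-- A digit of an array is written. -/
theorem run_put_encT {arr pw i : R} {b idx val : Exp R} (hip : i ≠ pw) (hai : arr ≠ i)
    (hap : arr ≠ pw) {s : R → ℕ} {B n e v : ℕ} {f g : ℕ → ℕ} (hB2 : 2 ≤ B)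
    (hb : ∀ n p, b.eval x cc (upd (upd s i n) pw p) = B) (hidx : idx.eval x cc s = e)
    (hval : ∀ p, val.eval x cc (upd (upd s i 0) pw p) = v)
    (hi0 : s i = 0) (hp0 : s pw = 0) (hf : ∀ i < n, f i < B) (harr : s arr = enc B n f)
    (he : e < n) (hA : B ^ n ≤ A) (hnA : n ≤ A) (hvB : v < B) (hg : g e = v)
    (hne : ∀ j < n, j ≠ e → g j = f j) (u : ℕ → Bool) :
    RunT x cc A body k (6 * n + 14) (lf (putC arr pw i b idx val)) s u
      (upd s arr (enc B n g)) u := by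
  have hB : 1 ≤ B := by omega
  have h1 : B ^ e < B ^ n := Nat.pow_lt_pow_right hB2 he
  have h3 : enc B n f - f e * B ^ e + v * B ^ e = enc B n g := enc_set he hg hne
  have h4 : enc B n g < B ^ n := enc_lt hB fun j hj => by
    by_cases h : j = e
    · rw [h, hg]; exact hvB
    · rw [hne j hj h]; exact hf j hj
  have h := run_putT' (x := x) (cc := cc) (A := A) (body := body) (k := k) (arr := arr)
    hip hai hap hB hb hidx hval (by omega) (by omega)
    (by rw [harr, enc_digit hB hf he, h3]; omega) u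
  rw [upd_eq_self' hi0, upd_eq_self' hp0, harr, enc_digit hB hf he, h3] at h
  exact h.mono le_rfl (by omega) le_rfl

/-- An entry of an array with two indices is read. -/
theorem run_get_enc2T {dst arr pw i : R} {b idx : Exp R} (hip : i ≠ pw) (hai : arr ≠ i)
    (hap : arr ≠ pw) {s : R → ℕ} {B m n t j : ℕ} {f : ℕ → ℕ → ℕ} (hB2 : 2 ≤ B)
    (hb : ∀ n p, b.eval x cc (upd (upd s i n) pw p) = B) (hidx : idx.eval x cc s = t * n + j)
    (hi0 : s i = 0) (hp0 : s pw = 0) (hf : ∀ t < m, ∀ j < n, f t j < B)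
    (harr : s arr = enc2 B m n f) (ht : t < m) (hj : j < n) (hA : B ^ (m * n) ≤ A)
    (hdp : dst ≠ pw) (u : ℕ → Bool) :
    RunT x cc A body k (6 * (m * n) + 14) (lf (getC dst arr pw i b idx)) s u
      (upd s dst (f t j)) u := by
  have h1 := idx_lt ht hj
  have h2 : m * n < B ^ (m * n) := Nat.lt_pow_self hB2
  have h := run_get_encT (x := x) (cc := cc) (A := A) (body := body) (k := k) (dst := dst)
    (arr := arr) (n := m * n) (f := fun i => f (i / n) (i % n)) hip hai hap (by omega) hb hidx hi0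
    hp0 (fun i hi => by
      obtain ⟨h1, h2, _⟩ := idx_pair hi
      exact hf _ h1 _ h2) harr h1 hA (by omega) hB2 hdp u
  simpa only [idx_div hj, idx_mod hj] using h

/-- An entry of an array with two indices is written. -/
theorem run_put_enc2T {arr pw i : R} {b idx val : Exp R} (hip : i ≠ pw) (hai : arr ≠ i)
    (hap : arr ≠ pw) {s : R → ℕ} {B m n t j v : ℕ} {f g : ℕ → ℕ → ℕ} (hB2 : 2 ≤ B)
    (hb : ∀ n p, b.eval x cc (upd (upd s i n) pw p) = B) (hidx : idx.eval x cc s = t * n + j)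
    (hval : ∀ p, val.eval x cc (upd (upd s i 0) pw p) = v)
    (hi0 : s i = 0) (hp0 : s pw = 0) (hf : ∀ t < m, ∀ j < n, f t j < B)
    (harr : s arr = enc2 B m n f) (ht : t < m) (hj : j < n) (hA : B ^ (m * n) ≤ A) (hvB : v < B)
    (hg : g t j = v) (hne : ∀ t' < m, ∀ j' < n, ¬(t' = t ∧ j' = j) → g t' j' = f t' j')
    (u : ℕ → Bool) :
    RunT x cc A body k (6 * (m * n) + 14) (lf (putC arr pw i b idx val)) s u
      (upd s arr (enc2 B m n g)) u := by
  have h1 := idx_lt ht hj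
  have h2 : m * n < B ^ (m * n) := Nat.lt_pow_self hB2
  exact run_put_encT (x := x) (cc := cc) (A := A) (body := body) (k := k) (arr := arr)
    (n := m * n) (f := fun i => f (i / n) (i % n)) (g := fun i => g (i / n) (i % n)) hip hai hap
    hB2 hb hidx hval hi0 hp0 (fun i hi => by
      obtain ⟨h1, h2, _⟩ := idx_pair hi
      exact hf _ h1 _ h2) harr h1 hA (by omega) hvB (by simp only [idx_div hj, idx_mod hj, hg])
    (fun i hi hne' => by
      obtain ⟨h1, h2, h3⟩ := idx_pair hi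
      refine hne _ h1 _ h2 fun ⟨h4, h5⟩ => hne' ?_
      rw [← h3, h4, h5]) u

end

end Pool.Agent.Lib.MP_9277c3_lc.NS
end

section
/-!
# Specifications with a bound for the time
-/
namespace Pool.Agent.Lib.MP_9277c3_lc.NS

open CM NC

section

variable {α R F : Type} (x : List α) (cc : Cell α → ℕ) (A : ℕ) (body : F → NStmt R F)
  (ρ : CR → R) {X : Type} (en : X → ℕ) (P : Par X (ℕ → Bool))
  (Rep : (R → ℕ) → St P.G (ℕ → Bool) → Prop)

/-- The program `a` transforms the states with the control registers `c` which represent `st` into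
states which represent `st'` and have control registers with the property `Q`, in time `τ`. -/
def TrT (k τ : ℕ) (a : NStmt R F) (c : CR → ℕ) (st : St P.G (ℕ → Bool)) (Q : (CR → ℕ) → Prop)
    (st' : St P.G (ℕ → Bool)) : Prop :=
  ∀ s, Rep s st → (∀ r, s (ρ r) = c r) → ∃ s' c', RunT x cc A body k τ a s st.u s' st'.u ∧
    Rep s' st' ∧ (∀ r, s' (ρ r) = c' r) ∧ Q c'

/-- The specifications of the operations, with a bound for the time. -/
structure OpsT (op : OF → NStmt R F) (k₀ τ₀ : ℕ) : Prop where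
  use : ∀ c st, c .lp ≤ P.T → c .ji ≤ P.S.K → TrT x cc A body ρ P Rep k₀ τ₀ (op .use) c st
    (fun c' => c' = CM.upd c .w (en (P.use (pos P.B (c .lp)) (c .ji) st).1))
    (P.use (pos P.B (c .lp)) (c .ji) st).2
  store : ∀ c st y, c .lp ≤ P.T → c .ji ≤ P.S.K → c .w = en y →
    TrT x cc A body ρ P Rep k₀ τ₀ (op .store) c st (fun c' => c' = c)
      (P.store (c .lp) (c .ji) y st)
  check : ∀ c st y, c .lp ≤ P.T → c .ji ≤ P.S.K → c .w = en y → c .cn ≤ 6 →
    TrT x cc A body ρ P Rep k₀ τ₀ (op .check) c st (fun c' => c' = c)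
      (P.check (c .lp) (c .ji) (c .cn) y st)
  rdget : ∀ c st, c .lp ≤ P.T →
    TrT x cc A body ρ P Rep k₀ τ₀ (op .rdget) c st
      (fun c' => c' = CM.upd c .q (st.rd (c .lp))) st
  rdset : ∀ c st, c .lp ≤ P.T → c .q < 2 * P.S.K →
    TrT x cc A body ρ P Rep k₀ τ₀ (op .rdset) c st (fun c' => c' = c)
      (P.setRd st (c .lp) (c .q))
  clget : ∀ c st, c .lp ≤ P.T → IsTop P.B (c .lp) →
    TrT x cc A body ρ P Rep k₀ τ₀ (op .clget) c st
      (fun c' => c' = CM.upd c .a (en (st.cl (c .lp)))) st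
  clset : ∀ c st y, c .lp ≤ P.T → IsTop P.B (c .lp) → c .a = en y →
    TrT x cc A body ρ P Rep k₀ τ₀ (op .clset) c st (fun c' => c' = c) (P.setCl st (c .lp) y)
  arg : ∀ c st y, c .ji < P.S.K → c .w = en y →
    TrT x cc A body ρ P Rep k₀ τ₀ (op .arg) c st
      (fun c' => c' = CM.upd c .a (en (P.S.arg (c .ji) y))) st
  upd : ∀ c st y z, c .ji < P.S.K → c .w = en y → c .v = en z →
    TrT x cc A body ρ P Rep k₀ τ₀ (op .upd) c st
      (fun c' => c' = CM.upd c .w (en (P.S.upd (c .ji) y z))) st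
  ini : ∀ c st y, c .a = en y →
    TrT x cc A body ρ P Rep k₀ τ₀ (op .ini) c st (fun c' => c' = CM.upd c .w (en (P.S.ini y))) st
  out : ∀ c st y, c .w = en y →
    TrT x cc A body ρ P Rep k₀ τ₀ (op .out) c st (fun c' => c' = CM.upd c .v (en (P.S.out y))) st
  v0 : ∀ c st y, c .a = en y →
    TrT x cc A body ρ P Rep k₀ τ₀ (op .v0) c st (fun c' => c' = CM.upd c .v (en (P.S.V0 y))) st
  test : ∀ c st y, c .v = en y →
    TrT x cc A body ρ P Rep k₀ τ₀ (op .test) c st (fun c' => c' = c)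
      (P.orFail st (@decide (¬P.acc y) (Classical.propDecidable _)))

end

section

variable {α Y : Type} {b g : ℕ} {F : Type}

/-- The specifications of the functions of the scheme and of the test, with a bound for the
time. -/
structure SchOpsT (x : List α) (cc : Cell α → ℕ) (A : ℕ) (body : F → NStmt (CR ⊕ OL Y) F)
    (P : Par (Fin (b ^ g)) (ℕ → Bool)) (Rep : (CR ⊕ OL Y → ℕ) → St P.G (ℕ → Bool) → Prop)
    (op : OF → NStmt (CR ⊕ OL Y) F) (k₀ τ₀ : ℕ) : Prop where
  arg : ∀ (c : CR → ℕ) st (y : Fin (b ^ g)), c .ji < P.S.K → c .w = y →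
    TrT x cc A body Sum.inl P Rep k₀ τ₀ (op .arg) c st
      (fun c' => c' = CM.upd c .a (P.S.arg (c .ji) y)) st
  upd : ∀ (c : CR → ℕ) st (y z : Fin (b ^ g)), c .ji < P.S.K → c .w = y → c .v = z →
    TrT x cc A body Sum.inl P Rep k₀ τ₀ (op .upd) c st
      (fun c' => c' = CM.upd c .w (P.S.upd (c .ji) y z)) st
  ini : ∀ (c : CR → ℕ) st (y : Fin (b ^ g)), c .a = y →
    TrT x cc A body Sum.inl P Rep k₀ τ₀ (op .ini) c st
      (fun c' => c' = CM.upd c .w (P.S.ini y)) st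
  out : ∀ (c : CR → ℕ) st (y : Fin (b ^ g)), c .w = y →
    TrT x cc A body Sum.inl P Rep k₀ τ₀ (op .out) c st
      (fun c' => c' = CM.upd c .v (P.S.out y)) st
  v0 : ∀ (c : CR → ℕ) st (y : Fin (b ^ g)), c .a = y →
    TrT x cc A body Sum.inl P Rep k₀ τ₀ (op .v0) c st
      (fun c' => c' = CM.upd c .v (P.S.V0 y)) st
  test : ∀ (c : CR → ℕ) st (y : Fin (b ^ g)), c .v = y →
    TrT x cc A body Sum.inl P Rep k₀ τ₀ (op .test) c st (fun c' => c' = c)
      (P.orFail st (@decide (¬P.acc y) (Classical.propDecidable _)))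

end

end Pool.Agent.Lib.MP_9277c3_lc.NS
end

section
/-!
# D4: the time of the control program
-/
namespace Pool.Agent.Lib.MP_9277c3_lc.NS

open CM NC

section

variable {α R F : Type} {x : List α} {cc : Cell α → ℕ} {A : ℕ} {body : F → NStmt R F}
  {ρ : CR → R} {X : Type} {en : X → ℕ} {P : Par X (ℕ → Bool)}
  {Rep : (R → ℕ) → St P.G (ℕ → Bool) → Prop}

/-! ### Rules -/

theorem TrT.nil {k : ℕ} {c : CR → ℕ} {st : St P.G (ℕ → Bool)} {Q : (CR → ℕ) → Prop} (h : Q c) :
    TrT x cc A body ρ P Rep k 1 (sqN []) c st Q st :=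
  fun s hs hc => ⟨s, c, RunT.skip _ _ _ _, hs, hc, h⟩

theorem TrT.wk {k k' n n' : ℕ} (hk : k ≤ k') (hn : n ≤ n') {a : NStmt R F} {c : CR → ℕ}
    {st st' : St P.G (ℕ → Bool)} {Q : (CR → ℕ) → Prop}
    (h : TrT x cc A body ρ P Rep k n a c st Q st') : TrT x cc A body ρ P Rep k' n' a c st Q st' := by
  intro s hs hc
  obtain ⟨s', c', hr, hs', hc', hq⟩ := h s hs hc
  exact ⟨s', c', hr.mono hk hn le_rfl, hs', hc', hq⟩

theorem TrT.le {k n n' : ℕ} {a : NStmt R F} {c : CR → ℕ}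
    {st st' : St P.G (ℕ → Bool)} {Q : (CR → ℕ) → Prop}
    (h : TrT x cc A body ρ P Rep k n a c st Q st') (hn : n ≤ n') :
    TrT x cc A body ρ P Rep k n' a c st Q st' := h.wk le_rfl hn

theorem TrT.cons {k n m : ℕ} {a : NStmt R F} {l : List (NStmt R F)} {c : CR → ℕ}
    {st st' st'' : St P.G (ℕ → Bool)} {Q Q' : (CR → ℕ) → Prop}
    (h₁ : TrT x cc A body ρ P Rep k n a c st Q st')
    (h₂ : ∀ c', Q c' → TrT x cc A body ρ P Rep k m (sqN l) c' st' Q' st'') :
    TrT x cc A body ρ P Rep k (n + m + 1) (sqN (a :: l)) c st Q' st'' := by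
  intro s hs hc
  obtain ⟨s', c', hr, hs', hc', hq⟩ := h₁ s hs hc
  obtain ⟨s'', c'', hr', hs'', hc'', hq'⟩ := h₂ c' hq s' hs' hc'
  exact ⟨s'', c'', RunT.seq _ _ _ _ _ _ _ _ _ _ _ hr hr', hs'', hc'', hq'⟩

theorem TrT.conseq {k n : ℕ} {a : NStmt R F} {c : CR → ℕ} {st st' : St P.G (ℕ → Bool)}
    {Q Q' : (CR → ℕ) → Prop} (h : TrT x cc A body ρ P Rep k n a c st Q st')
    (h' : ∀ c', Q c' → Q' c') : TrT x cc A body ρ P Rep k n a c st Q' st' := by
  intro s hs hc
  obtain ⟨s', c', hr, hs', hc', hq⟩ := h s hs hc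
  exact ⟨s', c', hr, hs', hc', h' _ hq⟩

theorem TrT.last {k n : ℕ} {a : NStmt R F} {c : CR → ℕ}
    {st st' : St P.G (ℕ → Bool)} {Q : (CR → ℕ) → Prop}
    (h : TrT x cc A body ρ P Rep k n a c st Q st') :
    TrT x cc A body ρ P Rep k (n + 1 + 1) (sqN [a]) c st Q st' :=
  TrT.cons h fun _ hq => TrT.nil hq

theorem TrT.set (hρ : Function.Injective ρ)
    (hRep : ∀ s s' st, Rep s st → (∀ r, (∀ c, ρ c ≠ r) → s' r = s r) → Rep s' st)
    {k m : ℕ} {r : CR} {e : Exp R} {l : List (NStmt R F)} {c : CR → ℕ}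
    {st st' : St P.G (ℕ → Bool)} {Q : (CR → ℕ) → Prop} (n : ℕ)
    (hn : ∀ s, (∀ r, s (ρ r) = c r) → e.eval x cc s = n) (hA : n < A)
    (h : TrT x cc A body ρ P Rep k m (sqN l) (upd c r n) st Q st') :
    TrT x cc A body ρ P Rep k (m + 2) (sqN (asg (ρ r) e :: l)) c st Q st' := by
  intro s hs hc
  have h1 : Rep (upd s (ρ r) n) st := hRep s _ st hs fun r' hr' => upd_ne (hr' r).symm _ _
  obtain ⟨s', c', hr, hs', hc', hq⟩ := h _ h1 (by
    intro r'
    by_cases h2 : r' = r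
    · subst h2
      rw [upd_self, upd_self]
    · rw [upd_ne h2, upd_ne (fun h3 => h2 (hρ h3)), hc])
  refine ⟨s', c', ?_, hs', hc', hq⟩
  have h3 : RunT x cc A body k (0 + 1) (asg (ρ r) e) s st.u (upd s (ρ r) n) st.u := by
    have h4 := hn s hc
    subst h4
    exact RunT.asg _ _ _ _ _ _ hA
  exact (RunT.seq _ _ _ _ _ _ _ _ _ _ _ h3 hr).mono le_rfl (by omega) le_rfl

theorem TrT.iteT {k n : ℕ} {r : CR} {a b : NStmt R F} {c : CR → ℕ} {st st' : St P.G (ℕ → Bool)}
    {Q : (CR → ℕ) → Prop} (h : c r ≠ 0) (h' : TrT x cc A body ρ P Rep k n a c st Q st') :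
    TrT x cc A body ρ P Rep k (n + 1) (Stmt.ite (ρ r) a b) c st Q st' := by
  intro s hs hc
  obtain ⟨s', c', hr, hs', hc', hq⟩ := h' s hs hc
  exact ⟨s', c', RunT.iteT _ _ _ _ _ _ _ _ _ (by rw [hc]; exact h) hr, hs', hc', hq⟩

theorem TrT.iteF {k n : ℕ} {r : CR} {a b : NStmt R F} {c : CR → ℕ} {st st' : St P.G (ℕ → Bool)}
    {Q : (CR → ℕ) → Prop} (h : c r = 0) (h' : TrT x cc A body ρ P Rep k n b c st Q st') :
    TrT x cc A body ρ P Rep k (n + 1) (Stmt.ite (ρ r) a b) c st Q st' := by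
  intro s hs hc
  obtain ⟨s', c', hr, hs', hc', hq⟩ := h' s hs hc
  exact ⟨s', c', RunT.iteF _ _ _ _ _ _ _ _ _ (by rw [hc]; exact h) hr, hs', hc', hq⟩

theorem TrT.call {k n : ℕ} {f : F} {a : NStmt R F} {c : CR → ℕ} {st st' : St P.G (ℕ → Bool)}
    {Q : (CR → ℕ) → Prop} (hf : body f = a) (h : TrT x cc A body ρ P Rep k n a c st Q st') :
    TrT x cc A body ρ P Rep (k + 1) (n + 1) (Stmt.call f) c st Q st' := by
  subst hf
  intro s hs hc
  obtain ⟨s', c', hr, hs', hc', hq⟩ := h s hs hc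
  exact ⟨s', c', RunT.call _ _ _ _ _ _ _ hr, hs', hc', hq⟩

/-! ### The control program -/

variable {op : OF → NStmt R F} {k₀ τ₀ : ℕ} (hρ : Function.Injective ρ)
    (hRep : ∀ s s' st, Rep s st → (∀ r, (∀ c, ρ c ≠ r) → s' r = s r) → Rep s' st)
    (h : OpsT x cc A body ρ en P Rep op k₀ τ₀) (hA : P.T + 2 * P.S.K + 10 < A)

include hρ hRep h hA

theorem supP_trT {c : CR → ℕ} {st : St P.G (ℕ → Bool)} (hl : c .lev < P.T)
    (hrd : st.rd (c .lev + 1) < 2 * P.S.K) :
    TrT x cc A body ρ P Rep k₀ (3 * τ₀ + 10) (supPC ρ op) c st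
      (fun c' => c' .a = en (P.supP (c .lev) st).1 ∧ c' .jj = c .jj ∧ Kq c c')
      (P.supP (c .lev) st).2 := by
  unfold supPC
  eapply TrT.le
  · eapply TrT.set hρ hRep (c .lev + 1) (by intro s hs; simp [hs]) (by omega)
    have h1 := h.rdget (upd c .lp (c .lev + 1)) st (by simp; omega)
    simp only [upd_self] at h1
    eapply TrT.cons h1
    rintro _ rfl
    eapply TrT.set hρ hRep (st.rd (c .lev + 1) / 2) (by intro s hs; simp [hs]) (by omega)
    set c₁ := upd (upd (upd c .lp (c .lev + 1)) .q (st.rd (c .lev + 1))) .ji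
      (st.rd (c .lev + 1) / 2) with hc₁
    have e1 : c₁ .lp = c .lev + 1 := by simp [hc₁]
    have e2 : c₁ .ji = st.rd (c .lev + 1) / 2 := by simp [hc₁]
    have h2 := h.use c₁ st (by rw [e1]; omega) (by rw [e2]; omega)
    rw [e1, e2] at h2
    eapply TrT.cons h2
    rintro _ rfl
    have h3 := h.arg (upd c₁ .w (en (P.use (pos P.B (c .lev + 1)) (st.rd (c .lev + 1) / 2) st).1))
      (P.use (pos P.B (c .lev + 1)) (st.rd (c .lev + 1) / 2) st).2
      (P.use (pos P.B (c .lev + 1)) (st.rd (c .lev + 1) / 2) st).1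
      (by simp only [ne_eq, reduceCtorEq, not_false_eq_true, upd_ne, e2]; omega) (by simp)
    simp only [ne_eq, reduceCtorEq, not_false_eq_true, upd_ne, e2] at h3
    eapply TrT.cons h3
    rintro _ rfl
    refine TrT.nil ⟨?_, ?_, ?_, ?_, ?_, ?_⟩
    · simp [Par.supP]
    all_goals simp [hc₁]
  · omega

theorem sup_trT (hT : IsTop P.B P.T) {c : CR → ℕ} {st : St P.G (ℕ → Bool)} (hc : Cst P c)
    (hl : c .lev ≤ P.T) (hrd : c .lev < P.T → st.rd (c .lev + 1) < 2 * P.S.K) :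
    TrT x cc A body ρ P Rep k₀ (3 * τ₀ + 20) (supC ρ op) c st
      (fun c' => c' .a = en (P.sup (c .lev) st).1 ∧ c' .jj = c .jj ∧ Kq c c')
      (P.sup (c .lev) st).2 := by
  unfold supC
  refine TrT.le (TrT.set hρ hRep (m := 3 * τ₀ + 15) (1 - ((c .lev + 1) % P.B))
    (by intro s hs; simp [hs, hc.cB]) (by omega) ?_) (by omega)
  by_cases ht : IsTop P.B (c .lev)
  · have ht' : (c .lev + 1) % P.B = 0 := ht
    eapply TrT.le
    eapply TrT.last
    eapply TrT.iteT (by simp [ht'])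
    eapply TrT.set hρ hRep (c .lev) (by intro s hs; simp [hs]) (by omega)
    set c₁ := upd (upd c .q (1 - ((c .lev + 1) % P.B))) .lp (c .lev) with hc₁
    have e1 : c₁ .lp = c .lev := by simp [hc₁]
    have h1 := h.clget c₁ st (by rw [e1]; exact hl) (by rw [e1]; exact ht)
    rw [e1] at h1
    have e2 : P.sup (c .lev) st = (st.cl (c .lev), st) := by
      unfold Par.sup
      rw [if_pos ht]
    rw [e2]
    eapply TrT.last
    eapply TrT.conseq h1
    · rintro _ rfl
      refine ⟨?_, ?_, ?_, ?_, ?_, ?_⟩ <;> simp [hc₁]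
    omega
  · have ht' : (c .lev + 1) % P.B ≠ 0 := ht
    have hne : c .lev ≠ P.T := fun h' => ht (h' ▸ hT)
    have hlt : c .lev < P.T := by omega
    eapply TrT.le
    eapply TrT.last
    eapply TrT.iteF (by simp; omega)
    have h1 := supP_trT hρ hRep h hA (c := upd c .q (1 - ((c .lev + 1) % P.B))) (st := st)
      (by simpa using hlt) (by simpa using hrd hlt)
    have e2 : P.sup (c .lev) st = P.supP (c .lev) st := by
      unfold Par.sup
      rw [if_neg ht]
    rw [e2]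
    simp only [ne_eq, reduceCtorEq, not_false_eq_true, upd_ne] at h1
    eapply TrT.conseq h1
    · rintro c' ⟨h2, h3, h4⟩
      exact ⟨h2, h3, ⟨by simpa using h4.lev, by simpa using h4.cB, by simpa using h4.cT,
        by simpa using h4.cK⟩⟩
    omega

theorem act_trT {c : CR → ℕ} {st : St P.G (ℕ → Bool)} (hc : Cst P c)
    (hl : c .lev ≤ P.T) (hrd : c .lev < P.T → st.rd (c .lev + 1) < 2 * P.S.K) {v : X}
    (hv : c .v = en v) :
    TrT x cc A body ρ P Rep k₀ (5 * τ₀ + 40) (actC ρ op) c st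
      (fun c' => c' .jj = c .jj ∧ Kq c c') (P.act (c .lev) v st) := by
  unfold actC
  refine TrT.le (TrT.set hρ hRep (m := 5 * τ₀ + 38) (1 - ((c .lev - P.T) + (P.T - c .lev)))
    (by intro s hs; simp [hs, hc.cT]) (by omega) ?_) (by omega)
  set c₀ := upd c .q (1 - ((c .lev - P.T) + (P.T - c .lev))) with hc₀
  by_cases ht : c .lev = P.T
  · eapply TrT.le
    eapply TrT.last
    eapply TrT.iteT (by simp [hc₀, ht])
    have h1 := h.test c₀ st v (by simp [hc₀, hv])
    have e2 : P.act (c .lev) v st =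
        P.orFail st (@decide (¬P.acc v) (Classical.propDecidable _)) := by
      unfold Par.act
      rw [if_pos ht]
      congr
    rw [e2]
    eapply TrT.conseq h1
    · rintro _ rfl
      refine ⟨?_, ?_, ?_, ?_, ?_⟩ <;> simp [hc₀]
    omega
  · have hlt : c .lev < P.T := by omega
    have hr := hrd hlt
    eapply TrT.le
    eapply TrT.last
    eapply TrT.iteF (by simp [hc₀]; omega)
    eapply TrT.set hρ hRep (c .lev + 1) (by intro s hs; simp [hs, hc₀]) (by omega)
    set c₁ := upd c₀ .lp (c .lev + 1) with hc₁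
    have e1 : c₁ .lp = c .lev + 1 := by simp [hc₁]
    have h1 := h.rdget c₁ st (by rw [e1]; omega)
    rw [e1] at h1
    eapply TrT.cons h1
    rintro _ rfl
    eapply TrT.set hρ hRep (st.rd (c .lev + 1) / 2) (by intro s hs; simp [hs]) (by omega)
    set c₂ := upd (upd c₁ .q (st.rd (c .lev + 1))) .ji (st.rd (c .lev + 1) / 2) with hc₂
    have e3 : c₂ .lp = c .lev + 1 := by simp [hc₂, hc₁]
    have e4 : c₂ .ji = st.rd (c .lev + 1) / 2 := by simp [hc₂]
    have h2 := h.use c₂ st (by rw [e3]; omega) (by rw [e4]; omega)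
    rw [e3, e4] at h2
    eapply TrT.cons h2
    rintro _ rfl
    set y := (P.use (pos P.B (c .lev + 1)) (st.rd (c .lev + 1) / 2) st).1 with hy
    set st₁ := (P.use (pos P.B (c .lev + 1)) (st.rd (c .lev + 1) / 2) st).2 with hst₁
    set c₃ := upd c₂ .w (en y) with hc₃
    have e5 : c₃ .ji = st.rd (c .lev + 1) / 2 := by simp [hc₃, e4]
    have h3 := h.upd c₃ st₁ y v (by rw [e5]; omega) (by simp [hc₃])
      (by simp [hc₃, hc₂, hc₁, hc₀, hv])
    rw [e5] at h3
    eapply TrT.cons h3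
    rintro _ rfl
    eapply TrT.set hρ hRep (st.rd (c .lev + 1) / 2 + 1) (by intro s hs; simp [hs, e5])
      (by omega)
    eapply TrT.set hρ hRep (m := τ₀ + 11) (st.rd (c .lev + 1) % 2)
      (by intro s hs; simp [hs, hc₃, hc₂]) (by omega)
    set w := P.S.upd (st.rd (c .lev + 1) / 2) y v with hw
    set c₄ := upd (upd (upd c₃ .w (en w)) .ji (st.rd (c .lev + 1) / 2 + 1)) .e
      (st.rd (c .lev + 1) % 2) with hc₄
    have e6 : c₄ .lp = c .lev + 1 := by simp [hc₄, hc₃, e3]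
    have e7 : c₄ .ji = st.rd (c .lev + 1) / 2 + 1 := by simp [hc₄]
    have e8 : c₄ .w = en w := by simp [hc₄]
    have e9 : c₄ .cK = P.S.K := by simp [hc₄, hc₃, hc₂, hc₁, hc₀, hc.cK]
    by_cases hp : st.rd (c .lev + 1) % 2 = 0
    · eapply TrT.le
      eapply TrT.last
      eapply TrT.iteF (by simp [hc₄, hp])
      have h4 := h.store c₄ st₁ w (by rw [e6]; omega) (by rw [e7]; omega) e8
      rw [e6, e7] at h4
      have e2 : P.act (c .lev) v st = P.store (c .lev + 1) (st.rd (c .lev + 1) / 2 + 1) w st₁ := by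
        unfold Par.act
        rw [if_neg ht]
        simp only [hp, if_true]
        rfl
      rw [e2]
      eapply TrT.conseq h4
      · rintro _ rfl
        refine ⟨?_, ?_, ?_, ?_, ?_⟩ <;> simp [hc₄, hc₃, hc₂, hc₁, hc₀]
      omega
    · eapply TrT.le
      eapply TrT.last
      eapply TrT.iteT (by simp only [hc₄, upd_self]; exact hp)
      have hcn : 1 + 5 * (1 - (1 - (P.S.K - (st.rd (c .lev + 1) / 2 + 1)))) =
          cnt (P.S.K - (st.rd (c .lev + 1) / 2 + 1)) := by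
        unfold cnt
        split_ifs <;> omega
      eapply TrT.set hρ hRep (cnt (P.S.K - (st.rd (c .lev + 1) / 2 + 1)))
        (by intro s hs; rw [← hcn]; simp [hs, e7, e9])
        (by have := cnt_le (P.S.K - (st.rd (c .lev + 1) / 2 + 1)); omega)
      set c₅ := upd c₄ .cn (cnt (P.S.K - (st.rd (c .lev + 1) / 2 + 1))) with hc₅
      have f1 : c₅ .lp = c .lev + 1 := by simp [hc₅, e6]
      have f2 : c₅ .ji = st.rd (c .lev + 1) / 2 + 1 := by simp [hc₅, e7]
      have f3 : c₅ .w = en w := by simp [hc₅, e8]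
      have f4 : c₅ .cn = cnt (P.S.K - (st.rd (c .lev + 1) / 2 + 1)) := by simp [hc₅]
      have h4 := h.check c₅ st₁ w (by rw [f1]; omega) (by rw [f2]; omega) f3
        (by rw [f4]; exact cnt_le _)
      rw [f1, f2, f4] at h4
      have e2 : P.act (c .lev) v st = P.check (c .lev + 1) (st.rd (c .lev + 1) / 2 + 1)
          (cnt (P.S.K - (st.rd (c .lev + 1) / 2 + 1))) w st₁ := by
        unfold Par.act
        rw [if_neg ht]
        simp only [hp, if_false]
        rfl
      rw [e2]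
      eapply TrT.last
      eapply TrT.conseq h4
      · rintro _ rfl
        refine ⟨?_, ?_, ?_, ?_, ?_⟩ <;> simp [hc₅, hc₄, hc₃, hc₂, hc₁, hc₀]
      omega
    omega

omit hρ hRep h hA in
/-- The call of the procedure `run` on the level `t` does its work, with `k` nested calls, in
time `n`. -/
def RunOKT (x : List α) (cc : Cell α → ℕ) (A : ℕ) (body : F → NStmt R F) (ρ : CR → R)
    (φ : CF → F) (P : Par X (ℕ → Bool)) (Rep : (R → ℕ) → St P.G (ℕ → Bool) → Prop)
    (k n t : ℕ) : Prop :=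
  ∀ c st, Cst P c → c .lev = t → (t < P.T → st.rd (t + 1) < 2 * P.S.K) →
    TrT x cc A body ρ P Rep k n (Stmt.call (φ .run)) c st (fun c' => Kq c c') (P.run t st)

theorem seg_trT {φ : CF → F} (hseg : body (φ .seg) = segC ρ φ op) {k n t : ℕ}
    (hk : k₀ ≤ k) (ht : t < P.T) (hrun : RunOKT x cc A body ρ φ P Rep k n t) :
    ∀ i j c st, Cst P c → c .lev = t + 1 → c .jj = j → i + j = P.S.K →
      (t + 1 < P.T → st.rd (t + 2) < 2 * P.S.K) →
      TrT x cc A body ρ P Rep (k + i) ((7 * τ₀ + 80) * (i + 1) + 2 * i * n) (segC ρ φ op) c st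
        (fun c' => c' .jj = c .jj ∧ Kq c c') (P.seg (P.run t) (t + 1) i j st) := by
  intro i
  induction i with
  | zero =>
    intro j c st hc hl hj hij hrd
    unfold segC
    eapply TrT.le
    eapply TrT.set hρ hRep 0 (by intro s hs; simp [hs, hc.cK, hj]; omega) (by omega)
    eapply TrT.last
    eapply TrT.iteF (by simp)
    eapply TrT.set hρ hRep (t + 1) (by intro s hs; simp [hs, hl]) (by omega)
    eapply TrT.set hρ hRep j (by intro s hs; simp [hs, hj]) (by omega)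
    set c₁ := upd (upd (upd c .e 0) .lp (t + 1)) .ji j with hc₁
    have e1 : c₁ .lp = t + 1 := by simp [hc₁]
    have e2 : c₁ .ji = j := by simp [hc₁]
    have h1 := (h.use c₁ st (by rw [e1]; omega) (by rw [e2]; omega)).wk
      (show k₀ ≤ k + 0 by omega) le_rfl
    rw [e1, e2] at h1
    eapply TrT.cons h1
    rintro _ rfl
    set y := (P.use (pos P.B (t + 1)) j st).1 with hy
    set st₁ := (P.use (pos P.B (t + 1)) j st).2 with hst₁
    have h2 := (h.out (upd c₁ .w (en y)) st₁ y (by simp)).wk (show k₀ ≤ k + 0 by omega) le_rfl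
    eapply TrT.cons h2
    rintro _ rfl
    set c₂ := upd (upd c₁ .w (en y)) .v (en (P.S.out y)) with hc₂
    have e3 : c₂ .lev = t + 1 := by simp [hc₂, hc₁, hl]
    have hc' : Cst P c₂ := by
      constructor <;> simp [hc₂, hc₁, hc.cB, hc.cT, hc.cK]
    have h3 := (act_trT hρ hRep h hA (c := c₂) (st := st₁) hc' (by rw [e3]; omega)
      (by rw [e3]; intro h'; exact hrd h') (v := P.S.out y) (by simp [hc₂])).wk
      (show k₀ ≤ k + 0 by omega) le_rfl
    rw [e3] at h3
    eapply TrT.last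
    eapply TrT.conseq h3
    · rintro c' ⟨h4, h5⟩
      refine ⟨?_, ?_, ?_, ?_, ?_⟩
      · rw [h4]
        simp [hc₂, hc₁]
      · rw [h5.lev]
        simp [hc₂, hc₁]
      · rw [h5.cB]
        simp [hc₂, hc₁]
      · rw [h5.cT]
        simp [hc₂, hc₁]
      · rw [h5.cK]
        simp [hc₂, hc₁]
    omega
  | succ i ih =>
    intro j c st hc hl hj hij hrd
    unfold segC
    eapply TrT.le
    eapply TrT.set hρ hRep (P.S.K - j) (by intro s hs; simp [hs, hc.cK, hj]) (by omega)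
    eapply TrT.last
    eapply TrT.iteT (by simp; omega)
    eapply TrT.set hρ hRep (t + 1) (by intro s hs; simp [hs, hl]) (by omega)
    eapply TrT.set hρ hRep (2 * j) (by intro s hs; simp [hs, hj]) (by omega)
    set c₁ := upd (upd (upd c .e (P.S.K - j)) .lp (t + 1)) .q (2 * j) with hc₁
    have e1 : c₁ .lp = t + 1 := by simp [hc₁]
    have e2 : c₁ .q = 2 * j := by simp [hc₁]
    have h1 := (h.rdset c₁ st (by rw [e1]; omega) (by rw [e2]; omega)).wk
      (show k₀ ≤ k + (i + 1) by omega) le_rfl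
    rw [e1, e2] at h1
    eapply TrT.cons h1
    rintro _ rfl
    eapply TrT.set hρ hRep t (by intro s hs; simp [hs, hc₁, hl]) (by omega)
    have hc1 : Cst P (upd c₁ .lev t) := by
      constructor <;> simp [hc₁, hc.cB, hc.cT, hc.cK]
    have h2 := (hrun (upd c₁ .lev t) (P.setRd st (t + 1) (2 * j)) hc1 (by simp)
      (by intro _; rw [Par.rd_setRd_self]; omega)).wk (show k ≤ k + (i + 1) by omega) le_rfl
    eapply TrT.cons h2
    intro c₂ hk₂
    have g1 : c₂ .lev = t := by rw [hk₂.lev]; simp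
    have hc2 : Cst P c₂ := hc1.of_kq hk₂
    set st₂ := P.run t (P.setRd st (t + 1) (2 * j)) with hst₂
    have hrd2 : st₂.rd (t + 1) = 2 * j := by
      rw [hst₂, Par.rdFix_run t _ (t + 1) (by omega), Par.rd_setRd_self]
    have hrd2' : t + 1 < P.T → st₂.rd (t + 2) < 2 * P.S.K := by
      intro h'
      rw [hst₂, Par.rdFix_run t _ (t + 2) (by omega), Par.rd_setRd_ne _ _ _ (by omega)]
      exact hrd h'
    eapply TrT.set hρ hRep (t + 1) (by intro s hs; simp [hs, g1]) (by omega)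
    eapply TrT.set hρ hRep (t + 1) (by intro s hs; simp [hs]) (by omega)
    set c₃ := upd (upd c₂ .lev (t + 1)) .lp (t + 1) with hc₃
    have e3 : c₃ .lp = t + 1 := by simp [hc₃]
    have h3 := (h.rdget c₃ st₂ (by rw [e3]; omega)).wk (show k₀ ≤ k + (i + 1) by omega) le_rfl
    rw [e3, hrd2] at h3
    eapply TrT.cons h3
    rintro _ rfl
    eapply TrT.set hρ hRep (j + 1) (by intro s hs; simp [hs]) (by omega)
    set c₄ := upd (upd c₃ .q (2 * j)) .jj (j + 1) with hc₄
    have hc4 : Cst P c₄ := by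
      constructor <;> simp [hc₄, hc₃, hc2.cB, hc2.cT, hc2.cK]
    have h4 := TrT.call hseg (ih (j + 1) c₄ st₂ hc4 (by simp [hc₄, hc₃]) (by simp [hc₄])
      (by omega) hrd2')
    eapply TrT.cons h4
    rintro c₅ ⟨h5, hk₅⟩
    have g2 : c₅ .jj = j + 1 := by rw [h5]; simp [hc₄]
    have g3 : c₅ .lev = t + 1 := by rw [hk₅.lev]; simp [hc₄, hc₃]
    have hc5 : Cst P c₅ := hc4.of_kq hk₅
    set st₅ := P.seg (P.run t) (t + 1) i (j + 1) st₂ with hst₅
    have hrd5 : t + 1 < P.T → st₅.rd (t + 2) < 2 * P.S.K := by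
      intro h'
      rw [hst₅, Par.rdFix_seg (Par.rdFix_run t) _ _ _ (t + 2) (by omega)]
      exact hrd2' h'
    eapply TrT.set hρ hRep j (by intro s hs; simp [hs, g2]) (by omega)
    eapply TrT.set hρ hRep (t + 1) (by intro s hs; simp [hs, g3]) (by omega)
    eapply TrT.set hρ hRep (2 * j + 1) (by intro s hs; simp [hs]) (by omega)
    set c₆ := upd (upd (upd c₅ .jj j) .lp (t + 1)) .q (2 * j + 1) with hc₆
    have e4 : c₆ .lp = t + 1 := by simp [hc₆]
    have e5 : c₆ .q = 2 * j + 1 := by simp [hc₆]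
    have h6 := (h.rdset c₆ st₅ (by rw [e4]; omega) (by rw [e5]; omega)).wk
      (show k₀ ≤ k + (i + 1) by omega) le_rfl
    rw [e4, e5] at h6
    eapply TrT.cons h6
    rintro _ rfl
    eapply TrT.set hρ hRep t (by intro s hs; simp [hs, hc₆, g3]) (by omega)
    have hc6 : Cst P (upd c₆ .lev t) := by
      constructor <;> simp [hc₆, hc5.cB, hc5.cT, hc5.cK]
    have h7 := (hrun (upd c₆ .lev t) (P.setRd st₅ (t + 1) (2 * j + 1)) hc6 (by simp)
      (by intro _; rw [Par.rd_setRd_self]; omega)).wk (show k ≤ k + (i + 1) by omega) le_rfl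
    eapply TrT.cons h7
    intro c₇ hk₇
    have g4 : c₇ .lev = t := by rw [hk₇.lev]; simp
    have hc7 : Cst P c₇ := hc6.of_kq hk₇
    set st₇ := P.run t (P.setRd st₅ (t + 1) (2 * j + 1)) with hst₇
    have hrd7 : st₇.rd (t + 1) = 2 * j + 1 := by
      rw [hst₇, Par.rdFix_run t _ (t + 1) (by omega), Par.rd_setRd_self]
    eapply TrT.set hρ hRep (t + 1) (by intro s hs; simp [hs, g4]) (by omega)
    eapply TrT.set hρ hRep (t + 1) (by intro s hs; simp [hs]) (by omega)
    set c₈ := upd (upd c₇ .lev (t + 1)) .lp (t + 1) with hc₈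
    have e6 : c₈ .lp = t + 1 := by simp [hc₈]
    have h8 := (h.rdget c₈ st₇ (by rw [e6]; omega)).wk (show k₀ ≤ k + (i + 1) by omega) le_rfl
    rw [e6, hrd7] at h8
    eapply TrT.cons h8
    rintro _ rfl
    eapply TrT.set hρ hRep j (by intro s hs; simp [hs]; omega) (by omega)
    refine TrT.nil ⟨?_, ?_, ?_, ?_, ?_⟩
    · simp [hj]
    · simp [hc₈, hl]
    · simp [hc₈, hc7.cB, hc.cB]
    · simp [hc₈, hc7.cT, hc.cT]
    · simp [hc₈, hc7.cK, hc.cK]
    have e : (7 * τ₀ + 80) * (i + 1 + 1) + 2 * (i + 1) * n =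
        ((7 * τ₀ + 80) * (i + 1) + 2 * i * n) + 2 * n + (7 * τ₀ + 80) := by ring
    rw [e]
    omega

theorem body_trT {φ : CF → F} (hseg : body (φ .seg) = segC ρ φ op) (hT : IsTop P.B P.T)
    {k n t : ℕ} (hk : k₀ ≤ k) (ht : t < P.T) (hrun : RunOKT x cc A body ρ φ P Rep k n t)
    {c : CR → ℕ} {st : St P.G (ℕ → Bool)} (hc : Cst P c) (hl : c .lev = t + 1)
    (hrd : t + 1 < P.T → st.rd (t + 2) < 2 * P.S.K) :
    TrT x cc A body ρ P Rep (k + P.S.K + 1)
      ((7 * τ₀ + 80) * (P.S.K + 1) + 2 * P.S.K * n + (12 * τ₀ + 120)) (bodyC ρ φ op) c st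
      (fun c' => Kq c c')
      (P.body (t + 1) st) := by
  unfold bodyC
  eapply TrT.le
  eapply TrT.iteT (by rw [hl]; omega)
  have hk' : k₀ ≤ k + P.S.K + 1 := by omega
  have h1 := (sup_trT hρ hRep h hA hT (c := c) (st := st) hc (by rw [hl]; omega)
    (by rw [hl]; exact hrd)).wk hk' le_rfl
  rw [hl] at h1
  eapply TrT.cons h1
  rintro c₁ ⟨ha, hj, hk₁⟩
  have hc1 : Cst P c₁ := hc.of_kq hk₁
  have hl1 : c₁ .lev = t + 1 := by rw [hk₁.lev, hl]
  set st₁ := (P.sup (t + 1) st).2 with hst₁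
  have hrd1 : st₁.rd = st.rd := by simp [hst₁]
  set y := (P.sup (t + 1) st).1 with hy
  eapply TrT.cons ((h.ini c₁ st₁ y ha).wk hk' le_rfl)
  rintro _ rfl
  eapply TrT.set hρ hRep (t + 1) (by intro s hs; simp [hs, hl1]) (by omega)
  eapply TrT.set hρ hRep 0 (by intro s hs; simp) (by omega)
  set c₂ := upd (upd (upd c₁ .w (en (P.S.ini y))) .lp (t + 1)) .ji 0 with hc₂
  have e1 : c₂ .lp = t + 1 := by simp [hc₂]
  have e2 : c₂ .ji = 0 := by simp [hc₂]
  have h2 := (h.store c₂ st₁ (P.S.ini y) (by rw [e1]; omega) (by rw [e2]; omega)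
    (by simp [hc₂])).wk hk' le_rfl
  rw [e1, e2] at h2
  eapply TrT.cons h2
  rintro _ rfl
  eapply TrT.set hρ hRep 0 (by intro s hs; simp) (by omega)
  set st₂ := P.store (t + 1) 0 (P.S.ini y) st₁ with hst₂
  have hrd2 : st₂.rd = st.rd := by rw [hst₂, Par.rd_store, hrd1]
  set c₃ := upd c₂ .jj 0 with hc₃
  have hc3 : Cst P c₃ := by
    constructor <;> simp [hc₃, hc₂, hc1.cB, hc1.cT, hc1.cK]
  have h3 := (TrT.call hseg (seg_trT hρ hRep h hA hseg hk ht hrun P.S.K 0 c₃ st₂ hc3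
    (by simp [hc₃, hc₂, hl1]) (by simp [hc₃]) (by omega) (by rw [hrd2]; exact hrd)))
  eapply TrT.cons h3
  rintro c₄ ⟨-, hk₄⟩
  have hc4 : Cst P c₄ := hc3.of_kq hk₄
  have hl4 : c₄ .lev = t + 1 := by rw [hk₄.lev]; simp [hc₃, hc₂, hl1]
  set st₄ := P.seg (P.run t) (t + 1) P.S.K 0 st₂ with hst₄
  have hrd4 : t + 1 < P.T → st₄.rd (t + 2) < 2 * P.S.K := by
    intro h'
    rw [hst₄, Par.rdFix_seg (Par.rdFix_run t) _ _ _ (t + 2) (by omega), hrd2]
    exact hrd h'
  have h4 := (sup_trT hρ hRep h hA hT (c := c₄) (st := st₄) hc4 (by rw [hl4]; omega)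
    (by rw [hl4]; exact hrd4)).wk hk' le_rfl
  rw [hl4] at h4
  eapply TrT.cons h4
  rintro c₅ ⟨ha5, -, hk₅⟩
  have hc5 : Cst P c₅ := hc4.of_kq hk₅
  have hl5 : c₅ .lev = t + 1 := by rw [hk₅.lev, hl4]
  set st₅ := (P.sup (t + 1) st₄).2 with hst₅
  set y' := (P.sup (t + 1) st₄).1 with hy'
  eapply TrT.cons ((h.ini c₅ st₅ y' ha5).wk hk' le_rfl)
  rintro _ rfl
  eapply TrT.set hρ hRep (t + 1) (by intro s hs; simp [hs, hl5]) (by omega)
  eapply TrT.set hρ hRep 0 (by intro s hs; simp) (by omega)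
  have hcn : 1 + 5 * (1 - (1 - P.S.K)) = cnt P.S.K := by
    unfold cnt
    split_ifs <;> omega
  eapply TrT.set hρ hRep (cnt P.S.K) (by intro s hs; rw [← hcn]; simp [hs, hc5.cK])
    (by have := cnt_le P.S.K; omega)
  set c₆ := upd (upd (upd (upd c₅ .w (en (P.S.ini y'))) .lp (t + 1)) .ji 0) .cn (cnt P.S.K)
    with hc₆
  have f1 : c₆ .lp = t + 1 := by simp [hc₆]
  have f2 : c₆ .ji = 0 := by simp [hc₆]
  have f3 : c₆ .w = en (P.S.ini y') := by simp [hc₆]
  have f4 : c₆ .cn = cnt P.S.K := by simp [hc₆]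
  have h5 := (h.check c₆ st₅ (P.S.ini y') (by rw [f1]; omega) (by rw [f2]; omega) f3
    (by rw [f4]; exact cnt_le _)).wk hk' le_rfl
  rw [f1, f2, f4] at h5
  eapply TrT.last
  eapply TrT.conseq h5
  · rintro _ rfl
    constructor
    · simp [hc₆, hl5, hl]
    · simp [hc₆, hc5.cB, hc.cB]
    · simp [hc₆, hc5.cT, hc.cT]
    · simp [hc₆, hc5.cK, hc.cK]
  omega

theorem body0_trT {φ : CF → F} (hT : IsTop P.B P.T)
    {c : CR → ℕ} {st : St P.G (ℕ → Bool)} (hc : Cst P c) (hl : c .lev = 0)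
    (hrd : 0 < P.T → st.rd 1 < 2 * P.S.K) :
    TrT x cc A body ρ P Rep k₀ (12 * τ₀ + 120) (bodyC ρ φ op) c st (fun c' => Kq c c')
      (P.body 0 st) := by
  unfold bodyC
  eapply TrT.le
  eapply TrT.iteF (by rw [hl])
  have h1 := sup_trT hρ hRep h hA hT (c := c) (st := st) hc (by rw [hl]; omega)
    (by rw [hl]; exact hrd)
  rw [hl] at h1
  eapply TrT.cons h1
  rintro c₁ ⟨ha, -, hk₁⟩
  have hc1 : Cst P c₁ := hc.of_kq hk₁
  have hl1 : c₁ .lev = 0 := by rw [hk₁.lev, hl]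
  set st₁ := (P.sup 0 st).2 with hst₁
  have hrd1 : st₁.rd = st.rd := by simp [hst₁]
  set y := (P.sup 0 st).1 with hy
  eapply TrT.cons (h.v0 c₁ st₁ y ha)
  rintro _ rfl
  set c₂ := upd c₁ .v (en (P.S.V0 y)) with hc₂
  have hc2 : Cst P c₂ := by
    constructor <;> simp [hc₂, hc1.cB, hc1.cT, hc1.cK]
  have hl2 : c₂ .lev = 0 := by simp [hc₂, hl1]
  have h2 := act_trT hρ hRep h hA (c := c₂) (st := st₁) hc2 (by rw [hl2]; omega)
    (by rw [hl2, hrd1]; exact hrd) (v := P.S.V0 y) (by simp [hc₂])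
  rw [hl2] at h2
  eapply TrT.cons h2
  rintro c₃ ⟨-, hk₃⟩
  have hc3 : Cst P c₃ := hc2.of_kq hk₃
  have hl3 : c₃ .lev = 0 := by rw [hk₃.lev, hl2]
  set st₃ := P.act 0 (P.S.V0 y) st₁ with hst₃
  have hrd3 : st₃.rd = st.rd := by rw [hst₃, Par.rd_act, hrd1]
  have h3 := sup_trT hρ hRep h hA hT (c := c₃) (st := st₃) hc3 (by rw [hl3]; omega)
    (by rw [hl3, hrd3]; exact hrd)
  rw [hl3] at h3
  eapply TrT.last
  eapply TrT.conseq h3
  · rintro c' ⟨-, -, hk₄⟩
    constructor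
    · rw [hk₄.lev, hl3, hl]
    · rw [hk₄.cB, hc3.cB, hc.cB]
    · rw [hk₄.cT, hc3.cT, hc.cT]
    · rw [hk₄.cK, hc3.cK, hc.cK]
  omega

/-- From the body to the procedure. -/
theorem run_of_bodyT {φ : CF → F} (hrunP : body (φ .run) = runC ρ φ op)
    {k n t : ℕ} (hk : k₀ ≤ k) (ht : t < P.T)
    (hb : ∀ c st, Cst P c → c .lev = t → (t < P.T → st.rd (t + 1) < 2 * P.S.K) →
      TrT x cc A body ρ P Rep k n (bodyC ρ φ op) c st (fun c' => Kq c c') (P.body t st)) :
    RunOKT x cc A body ρ φ P Rep (k + 1) (n + (7 * τ₀ + 60)) t := by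
  intro c st hc hl hrd
  have hr := hrd ht
  refine TrT.le (TrT.call hrunP (n := n + (7 * τ₀ + 50)) ?_) (by omega)
  unfold runC
  refine TrT.le (TrT.set hρ hRep (m := n + (7 * τ₀ + 48)) (1 - ((t + 1) % P.B))
    (by intro s hs; simp [hs, hc.cB, hl]) (by omega) ?_) (by omega)
  set c₁ := upd c .q (1 - ((t + 1) % P.B)) with hc₁
  have hc1 : Cst P c₁ := by
    constructor <;> simp [hc₁, hc.cB, hc.cT, hc.cK]
  have hl1 : c₁ .lev = t := by simp [hc₁, hl]
  by_cases htop : IsTop P.B t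
  · have ht' : (t + 1) % P.B = 0 := htop
    eapply TrT.le
    eapply TrT.last
    eapply TrT.iteT (by simp [hc₁, ht'])
    have h1 := (supP_trT hρ hRep h hA (c := c₁) (st := st) (by rw [hl1]; exact ht)
      (by rw [hl1]; exact hr)).wk hk le_rfl
    rw [hl1] at h1
    eapply TrT.cons h1
    rintro c₂ ⟨ha, -, hk₂⟩
    have hc2 : Cst P c₂ := hc1.of_kq hk₂
    have hl2 : c₂ .lev = t := by rw [hk₂.lev, hl1]
    eapply TrT.set hρ hRep t (by intro s hs; simp [hs, hl2]) (by omega)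
    set c₃ := upd c₂ .lp t with hc₃
    have hc3 : Cst P c₃ := by
      constructor <;> simp [hc₃, hc2.cB, hc2.cT, hc2.cK]
    have hl3 : c₃ .lev = t := by simp [hc₃, hl2]
    have e1 : c₃ .lp = t := by simp [hc₃]
    set y := (P.supP t st).1 with hy
    set st₁ := (P.supP t st).2 with hst₁
    have h2 := (h.clset c₃ st₁ y (by rw [e1]; omega) (by rw [e1]; exact htop)
      (by simp [hc₃, ha])).wk hk le_rfl
    rw [e1] at h2
    eapply TrT.cons h2
    rintro _ rfl
    set st₂ := P.setCl st₁ t y with hst₂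
    have hrd2 : st₂.rd = st.rd := by rw [hst₂, Par.rd_setCl, hst₁, Par.rd_supP]
    eapply TrT.cons (hb c₃ st₂ hc3 hl3 (by rw [hrd2]; exact hrd))
    intro c₄ hk₄
    have hc4 : Cst P c₄ := hc3.of_kq hk₄
    have hl4 : c₄ .lev = t := by rw [hk₄.lev, hl3]
    set st₄ := P.body t st₂ with hst₄
    have hrd4 : st₄.rd (t + 1) < 2 * P.S.K := by
      rw [hst₄, Par.rdFix_body t _ (t + 1) (by omega), hrd2]
      exact hr
    have h5 := (supP_trT hρ hRep h hA (c := c₄) (st := st₄) (by rw [hl4]; exact ht)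
      (by rw [hl4]; exact hrd4)).wk hk le_rfl
    rw [hl4] at h5
    have e2 : P.run t st = (P.supP t st₄).2 := by
      unfold Par.run Par.wrap
      rw [if_pos htop]
    rw [e2]
    eapply TrT.last
    eapply TrT.conseq h5
    · rintro c' ⟨-, -, hk₅⟩
      constructor
      · rw [hk₅.lev, hl4, hl]
      · rw [hk₅.cB, hc4.cB, hc.cB]
      · rw [hk₅.cT, hc4.cT, hc.cT]
      · rw [hk₅.cK, hc4.cK, hc.cK]
    omega
  · have ht' : (t + 1) % P.B ≠ 0 := htop
    eapply TrT.le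
    eapply TrT.last
    eapply TrT.iteF (by simp [hc₁]; omega)
    have e2 : P.run t st = P.body t st := by
      unfold Par.run Par.wrap
      rw [if_neg htop]
    rw [e2]
    eapply TrT.conseq (hb c₁ st hc1 hl1 hrd)
    · intro c' hk₅
      constructor
      · rw [hk₅.lev, hl1, hl]
      · rw [hk₅.cB, hc1.cB, hc.cB]
      · rw [hk₅.cT, hc1.cT, hc.cT]
      · rw [hk₅.cK, hc1.cK, hc.cK]
    omega

/-- A bound for the time of the body of the level `t`. -/
def bt (K τ t : ℕ) : ℕ := 2 * ((7 * τ + 80) * (K + 1) + (19 * τ + 200)) * (2 * K + 1) ^ t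

/-- The body on the levels `t ≤ T`. -/
theorem main_trT {φ : CF → F} (hseg : body (φ .seg) = segC ρ φ op)
    (hrunP : body (φ .run) = runC ρ φ op) (hT : IsTop P.B P.T) :
    ∀ t, t ≤ P.T → ∀ c st, Cst P c → c .lev = t → (t < P.T → st.rd (t + 1) < 2 * P.S.K) →
      TrT x cc A body ρ P Rep (k₀ + t * (P.S.K + 2)) (bt P.S.K τ₀ t - (7 * τ₀ + 60))
        (bodyC ρ φ op) c st (fun c' => Kq c c') (P.body t st) := by
  intro t
  induction t with
  | zero =>
    intro _ c st hc hl hrd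
    refine (body0_trT hρ hRep h hA (φ := φ) hT hc hl hrd).wk (by omega) ?_
    unfold bt
    rw [pow_zero, Nat.mul_one]
    generalize (7 * τ₀ + 80) * (P.S.K + 1) = y
    omega
  | succ t ih =>
    intro ht c st hc hl hrd
    have h1 : RunOKT x cc A body ρ φ P Rep (k₀ + t * (P.S.K + 2) + 1)
        (bt P.S.K τ₀ t - (7 * τ₀ + 60) + (7 * τ₀ + 60)) t :=
      run_of_bodyT hρ hRep h hA hrunP (by omega) (by omega) (ih (by omega))
    have h2 := body_trT hρ hRep h hA hseg hT (k := k₀ + t * (P.S.K + 2) + 1) (by omega)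
      (by omega) h1 hc hl hrd
    refine h2.wk ?_ ?_
    · have : k₀ + (t + 1) * (P.S.K + 2) = k₀ + t * (P.S.K + 2) + 1 + P.S.K + 1 := by ring
      omega
    · have h3 : 1 ≤ (2 * P.S.K + 1) ^ t := Nat.one_le_pow _ _ (by omega)
      have h4 : 7 * τ₀ + 60 ≤ bt P.S.K τ₀ t := by
        unfold bt
        nlinarith [Nat.zero_le ((7 * τ₀ + 80) * (P.S.K + 1))]
      rw [Nat.sub_add_cancel h4]
      have h5 : bt P.S.K τ₀ (t + 1) = 2 * P.S.K * bt P.S.K τ₀ t + bt P.S.K τ₀ t := by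
        unfold bt
        ring
      have h6 : 2 * ((7 * τ₀ + 80) * (P.S.K + 1) + (19 * τ₀ + 200)) ≤ bt P.S.K τ₀ t := by
        unfold bt
        exact Nat.le_mul_of_pos_right _ h3
      rw [h5]
      generalize (7 * τ₀ + 80) * (P.S.K + 1) = y at *
      omega

end

end Pool.Agent.Lib.MP_9277c3_lc.NS
end

section
/-!
# The time of the operations
-/
set_option autoImplicit false
set_option linter.constructorNameAsVariable false

namespace Pool.Agent.Lib.MP_9277c3_lc.NS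

open CM NC
open Pool.Agent.MP_9277c3_lc.NS (Om RR ev cst dd)

section

variable {α F : Type} {Y : Type} {b g : ℕ}
variable {pv : Y → ℕ} {K B T A k : ℕ} {st : St (gad (le_refl (b ^ g))) (ℕ → Bool)}
variable {l : OL Y → ℕ} {c : CR → ℕ} {x : List α} {cc : Cell α → ℕ}
variable {body : F → NStmt (CR ⊕ OL Y) F}

theorem run_getRT (hQ : Bnd K B T b g A) (h : Lays pv K B T st l) (hj : c .ji ≤ K)
    (u : ℕ → Bool) :
    RunT x cc A body k (6 * (2 * B * (K + 1)) + 14) (lf (getR K)) (Sum.elim c l) u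
      (Sum.elim c (upd l (.loc .W) (pack (st.R (pos B (c .lp)) (c .ji))))) u := by
  have h1 : l .rW = RR 6 b g ^ (g + 2) := h .rW nofun
  have h2 : l .rB = B := h .rB nofun
  have h3 : l .AR = enc2 (RR 6 b g ^ (g + 2)) (2 * B) (K + 1) fun p j => pack (st.R p j) :=
    h .AR nofun
  have h4 := RR_two_le hQ.hb hQ.hg
  have h5 := hQ.hB
  rw [← upd_inr]
  unfold getR
  refine run_get_enc2T (R := CR ⊕ OL Y) (dst := Sum.inr (.loc .W)) (arr := Sum.inr .AR)
    (pw := Sum.inr .pw) (i := Sum.inr .i) (b := vr .rW) (idx := idxR K)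
    (f := fun p j => pack (st.R p j)) (m := 2 * B) (n := K + 1) (t := pos B (c .lp))
    (j := c .ji) (B := RR 6 b g ^ (g + 2)) (by simp) (by simp) (by simp) (h4.trans (Nat.le_self_pow (by omega) _)) (fun n p => ?_) ?_
    (h .i nofun) (h .pw nofun) (fun _ _ _ _ => pack_lt _) h3
    (Nat.mod_lt _ (by omega)) (by omega) hQ.hR (by simp) u
  · rw [eval_var, upd_ne (by simp), upd_ne (by simp)]
    exact h1
  · simp only [idxR, pos, eval_add, eval_mul, eval_mod, eval_var, Sum.elim_inl, Sum.elim_inr, h2]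
    rfl

theorem run_putRT (hQ : Bnd K B T b g A)
    (h : Lays pv K B T st l) (hj : c .ji ≤ K) {v : Om 6 b g} (hw : l (.loc .W) = pack v)
    {st' : St (gad (le_refl (b ^ g))) (ℕ → Bool)} (h1' : st'.R (pos B (c .lp)) (c .ji) = v)
    (h2' : ∀ p < 2 * B, ∀ i < K + 1, ¬(p = pos B (c .lp) ∧ i = c .ji) → st'.R p i = st.R p i)
    (h3' : st'.tau = st.tau) (h4' : st'.rd = st.rd) (h5' : st'.cl = st.cl)
    (h6' : st'.fail = st.fail) (u : ℕ → Bool) :
    ∃ l', RunT x cc A body k (6 * (2 * B * (K + 1)) + 14) (lf (putR K)) (Sum.elim c l) u (Sum.elim c l') u ∧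
      Lays pv K B T st' l' ∧ ∀ y, l' (.loc y) = l (.loc y) := by
  have h1 : l .rW = RR 6 b g ^ (g + 2) := h .rW nofun
  have h2 : l .rB = B := h .rB nofun
  have h3 : l .AR = enc2 (RR 6 b g ^ (g + 2)) (2 * B) (K + 1) fun p j => pack (st.R p j) :=
    h .AR nofun
  have h4 := RR_two_le hQ.hb hQ.hg
  have h5 := hQ.hB
  refine ⟨upd l .AR (enc2 (RR 6 b g ^ (g + 2)) (2 * B) (K + 1) fun p j => pack (st'.R p j)), ?_, ?_,
    ?_⟩
  · rw [← upd_inr]
    unfold putR
    refine run_put_enc2T (R := CR ⊕ OL Y) (arr := Sum.inr .AR)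
      (pw := Sum.inr .pw) (i := Sum.inr .i) (b := vr .rW) (idx := idxR K) (val := vr (.loc .W))
      (f := fun p j => pack (st.R p j)) (g := fun p j => pack (st'.R p j))
      (m := 2 * B) (n := K + 1) (v := pack v)
      (t := pos B (c .lp)) (j := c .ji) (B := RR 6 b g ^ (g + 2)) (by simp)
      (by simp) (by simp) (h4.trans (Nat.le_self_pow (by omega) _)) (fun n p => ?_) ?_
      (fun p => ?_)
      (h .i nofun) (h .pw nofun) (fun _ _ _ _ => pack_lt _) h3
      (Nat.mod_lt _ (by omega)) (by omega) hQ.hR (pack_lt _) (by rw [h1'])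
      (fun p hp i hi hne => by rw [h2' p hp i hi hne]) u
    · rw [eval_var, upd_ne (by simp), upd_ne (by simp)]
      exact h1
    · simp only [idxR, pos, eval_add, eval_mul, eval_mod, eval_var, Sum.elim_inl, Sum.elim_inr,
        h2]
      rfl
    · rw [eval_var, upd_ne (by simp), upd_ne (by simp)]
      exact hw
  · intro r hr4
    by_cases hr : r = .AR
    · subst hr
      rw [upd_self]
      rfl
    · rw [upd_ne hr, h r hr4]
      cases r <;> simp_all [lay]
  · intro y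
    rw [upd_ne (by simp)]

theorem run_getTT (hQ : Bnd K B T b g A) (h : Lays pv K B T st l)
    (hcr : l (.loc .cr) = RR 6 b g) (hq : c .lp ≤ T) (hj : c .ji ≤ K) (u : ℕ → Bool) :
    RunT x cc A body k (6 * ((T + 1) * (K + 1)) + 14) (lf (getT K)) (Sum.elim c l) u
      (Sum.elim c (upd l (.loc .t) (st.tau (c .lp) (c .ji)).val)) u := by
  have h3 : l .AT = enc2 (RR 6 b g) (T + 1) (K + 1) fun t j => (st.tau t j).val :=
    h .AT nofun
  have h4 := RR_two_le hQ.hb hQ.hg
  rw [← upd_inr]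
  unfold getT
  refine run_get_enc2T (R := CR ⊕ OL Y) (dst := Sum.inr (.loc .t)) (arr := Sum.inr .AT)
    (pw := Sum.inr .pw) (i := Sum.inr .i) (b := vr (.loc .cr)) (idx := idxT K)
    (f := fun t j => (st.tau t j).val) (m := T + 1) (n := K + 1) (t := c .lp)
    (j := c .ji) (B := RR 6 b g) (by simp) (by simp) (by simp) h4 (fun n p => ?_) ?_
    (h .i nofun) (h .pw nofun)
    (fun _ _ _ _ => ZMod.val_lt _) h3 (by omega) (by omega) hQ.hT (by simp) u
  · rw [eval_var, upd_ne (by simp), upd_ne (by simp)]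
    exact hcr
  · simp only [idxT, eval_add, eval_mul, eval_var, Sum.elim_inl]
    rfl

theorem run_putTT (hQ : Bnd K B T b g A) (h : Lays pv K B T st l)
    (hcr : l (.loc .cr) = RR 6 b g) (hq : c .lp ≤ T) (hj : c .ji ≤ K) {v : ZMod (RR 6 b g)}
    (hw : l (.loc .e) = v.val)
    {st' : St (gad (le_refl (b ^ g))) (ℕ → Bool)} (h1' : st'.tau (c .lp) (c .ji) = v)
    (h2' : ∀ p < T + 1, ∀ i < K + 1, ¬(p = c .lp ∧ i = c .ji) → st'.tau p i = st.tau p i)
    (h3' : st'.R = st.R) (h4' : st'.rd = st.rd) (h5' : st'.cl = st.cl)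
    (h6' : st'.fail = st.fail) (u : ℕ → Bool) :
    ∃ l', RunT x cc A body k (6 * ((T + 1) * (K + 1)) + 14) (lf (putT K)) (Sum.elim c l) u (Sum.elim c l') u ∧
      Lays pv K B T st' l' ∧ ∀ y, l' (.loc y) = l (.loc y) := by
  have h3 : l .AT = enc2 (RR 6 b g) (T + 1) (K + 1) fun t j => (st.tau t j).val :=
    h .AT nofun
  have h4 := RR_two_le hQ.hb hQ.hg
  refine ⟨upd l .AT (enc2 (RR 6 b g) (T + 1) (K + 1) fun t j => (st'.tau t j).val), ?_, ?_, ?_⟩
  · rw [← upd_inr]
    unfold putT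
    refine run_put_enc2T (R := CR ⊕ OL Y) (arr := Sum.inr .AT)
      (pw := Sum.inr .pw) (i := Sum.inr .i) (b := vr (.loc .cr)) (idx := idxT K)
      (val := vr (.loc .e)) (f := fun t j => (st.tau t j).val) (g := fun t j => (st'.tau t j).val)
      (m := T + 1) (n := K + 1) (v := v.val)
      (t := c .lp) (j := c .ji) (B := RR 6 b g) (by simp) (by simp) (by simp) h4 (fun n p => ?_) ?_
      (fun p => ?_)
      (h .i nofun) (h .pw nofun) (fun _ _ _ _ => ZMod.val_lt _)
      h3 (by omega) (by omega) hQ.hT (ZMod.val_lt _) (by rw [h1']; rfl)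
      (fun p hp i hi hne => by rw [h2' p hp i hi hne]) u
    · rw [eval_var, upd_ne (by simp), upd_ne (by simp)]
      exact hcr
    · simp only [idxT, eval_add, eval_mul, eval_var, Sum.elim_inl]
      rfl
    · rw [eval_var, upd_ne (by simp), upd_ne (by simp)]
      exact hw
  · intro r hr4
    by_cases hr : r = .AT
    · subst hr
      rw [upd_self]
      rfl
    · rw [upd_ne hr, h r hr4]
      cases r <;> simp_all [lay]
  · intro y
    rw [upd_ne (by simp)]

theorem run_getDT (hQ : Bnd K B T b g A) (hrd : ∀ t ≤ T, st.rd t < 2 * K + 2)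
    (h : Lays pv K B T st l) (hq : c .lp ≤ T) (u : ℕ → Bool) :
    RunT x cc A body k (6 * (T + 1) + 14) (lf (getD K)) (Sum.elim c l) u
      (Sum.elim (upd c .q (st.rd (c .lp))) l) u := by
  have h3 : l .AD = enc (2 * K + 2) (T + 1) st.rd := h .AD nofun
  have h6 : T + 1 < (2 * K + 2) ^ (T + 1) := Nat.lt_pow_self (by omega)
  have h7 := hQ.hD
  rw [← upd_inl]
  unfold getD
  exact run_get_encT (R := CR ⊕ OL Y) (dst := Sum.inl .q) (arr := Sum.inr .AD)
    (pw := Sum.inr .pw) (i := Sum.inr .i) (b := Exp.lit (2 * K + 2)) (idx := vl .lp)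
    (f := st.rd) (n := T + 1) (B := 2 * K + 2) (e := c .lp) (by simp)
    (by simp) (by simp) (by omega) (fun n p => rfl) rfl
    (h .i nofun) (h .pw nofun)
    (fun t ht => hrd t (by omega)) h3 (by omega) hQ.hD (by omega) (by omega) (by simp) u

theorem run_putDT (hQ : Bnd K B T b g A) (hrd : ∀ t ≤ T, st.rd t < 2 * K + 2)
    (h : Lays pv K B T st l) (hq : c .lp ≤ T) (hy : c .q < 2 * K + 2)
    {st' : St (gad (le_refl (b ^ g))) (ℕ → Bool)} (h1' : st'.rd (c .lp) = c .q)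
    (h2' : ∀ p < T + 1, p ≠ c .lp → st'.rd p = st.rd p)
    (h3' : st'.R = st.R) (h4' : st'.tau = st.tau) (h5' : st'.cl = st.cl)
    (h6' : st'.fail = st.fail) (u : ℕ → Bool) :
    ∃ l', RunT x cc A body k (6 * (T + 1) + 14) (lf (putD K)) (Sum.elim c l) u (Sum.elim c l') u ∧
      Lays pv K B T st' l' ∧ ∀ y, l' (.loc y) = l (.loc y) := by
  have h3 : l .AD = enc (2 * K + 2) (T + 1) st.rd := h .AD nofun
  have h6 : T + 1 < (2 * K + 2) ^ (T + 1) := Nat.lt_pow_self (by omega)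
  have h7 := hQ.hD
  refine ⟨upd l .AD (enc (2 * K + 2) (T + 1) st'.rd), ?_, ?_, ?_⟩
  · rw [← upd_inr]
    unfold putD
    exact run_put_encT (R := CR ⊕ OL Y) (arr := Sum.inr .AD)
      (pw := Sum.inr .pw) (i := Sum.inr .i) (b := Exp.lit (2 * K + 2)) (idx := vl .lp)
      (val := vl .q) (f := st.rd) (g := st'.rd)
      (n := T + 1) (v := c .q) (e := c .lp) (B := 2 * K + 2) (by simp)
      (by simp) (by simp) (by omega) (fun n p => rfl) rfl
      (fun p => by rw [eval_var, upd_ne (by simp), upd_ne (by simp)]; rfl)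
      (h .i nofun) (h .pw nofun)
      (fun t ht => hrd t (by omega)) h3 (by omega) hQ.hD (by omega) hy h1' h2' u
  · intro r hr4
    by_cases hr : r = .AD
    · subst hr
      rw [upd_self]
      rfl
    · rw [upd_ne hr, h r hr4]
      cases r <;> simp_all [lay]
  · intro y
    rw [upd_ne (by simp)]

theorem run_getLT (hQ : Bnd K B T b g A)
    (h : Lays pv K B T st l) (hq : c .lp ≤ T) (htop : IsTop B (c .lp)) (u : ℕ → Bool) :
    RunT x cc A body k (6 * ((T + 1) / B) + 14) (lf getL) (Sum.elim c l) u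
      (Sum.elim (upd c .a (st.cl (c .lp)).val) l) u := by
  have h1 : l .rN = b ^ g := h .rN nofun
  have h2 : l .rB = B := h .rB nofun
  have h3 : l .AC = enc (b ^ g) ((T + 1) / B) fun i => (st.cl (i * B + (B - 1))).val :=
    h .AC nofun
  have h4 : 2 ≤ b ^ g := hQ.hb.trans (Nat.le_self_pow (by have := hQ.hg; omega) _)
  have h6 : (T + 1) / B < (b ^ g) ^ ((T + 1) / B) := Nat.lt_pow_self (by omega)
  have h7 := hQ.hC
  have h8 := run_get_encT (x := x) (cc := cc) (A := A) (body := body) (k := k)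
    (s := Sum.elim c l) (dst := Sum.inl .a) (arr := Sum.inr OL.AC) (pw := Sum.inr OL.pw)
    (i := Sum.inr OL.i) (b := vr .rN)
    (idx := vl .lp / vr .rB) (e := c .lp / B)
    (f := fun i => (st.cl (i * B + (B - 1))).val) (n := (T + 1) / B) (B := b ^ g) (by simp)
    (by simp) (by simp) (by omega)
    (fun n p => by rw [eval_var, upd_ne (by simp), upd_ne (by simp)]; exact h1)
    (by rw [eval_div, eval_var, eval_var, Sum.elim_inl, Sum.elim_inr, h2])
    (h .i nofun) (h .pw nofun)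
    (fun t ht => Fin.isLt _) h3 (top_lt hQ.hB htop hq) hQ.hC (by omega) (by omega) (by simp) u
  rw [upd_inl, top_div hQ.hB htop] at h8
  exact h8

theorem run_putLT (hQ : Bnd K B T b g A)
    (h : Lays pv K B T st l) (hq : c .lp ≤ T) (htop : IsTop B (c .lp)) {v : Fin (b ^ g)}
    (hy : c .a = v.val)
    {st' : St (gad (le_refl (b ^ g))) (ℕ → Bool)} (h1' : st'.cl (c .lp) = v)
    (h2' : ∀ p, p ≠ c .lp → st'.cl p = st.cl p)
    (h3' : st'.R = st.R) (h4' : st'.tau = st.tau) (h5' : st'.rd = st.rd)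
    (h6' : st'.fail = st.fail) (u : ℕ → Bool) :
    ∃ l', RunT x cc A body k (6 * ((T + 1) / B) + 14) (lf putL) (Sum.elim c l) u (Sum.elim c l') u ∧
      Lays pv K B T st' l' ∧ ∀ y, l' (.loc y) = l (.loc y) := by
  have h1 : l .rN = b ^ g := h .rN nofun
  have h2 : l .rB = B := h .rB nofun
  have h3 : l .AC = enc (b ^ g) ((T + 1) / B) fun i => (st.cl (i * B + (B - 1))).val :=
    h .AC nofun
  have h4 : 2 ≤ b ^ g := hQ.hb.trans (Nat.le_self_pow (by have := hQ.hg; omega) _)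
  have h6 : (T + 1) / B < (b ^ g) ^ ((T + 1) / B) := Nat.lt_pow_self (by omega)
  have h7 := hQ.hC
  have h5 := hQ.hB
  refine ⟨upd l .AC (enc (b ^ g) ((T + 1) / B) fun i => (st'.cl (i * B + (B - 1))).val), ?_, ?_,
    ?_⟩
  · rw [← upd_inr]
    unfold putL
    exact run_put_encT (R := CR ⊕ OL Y) (arr := Sum.inr .AC)
      (pw := Sum.inr .pw) (i := Sum.inr .i) (b := vr .rN) (idx := vl .lp / vr .rB)
      (val := vl .a) (f := fun i => (st.cl (i * B + (B - 1))).val)
      (g := fun i => (st'.cl (i * B + (B - 1))).val) (n := (T + 1) / B)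
      (v := v.val) (e := c .lp / B) (B := b ^ g) (by simp) (by simp) (by simp) (by omega)
      (fun n p => by rw [eval_var, upd_ne (by simp), upd_ne (by simp)]; exact h1)
      (by rw [eval_div, eval_var, eval_var, Sum.elim_inl, Sum.elim_inr, h2])
      (fun p => by rw [eval_var, upd_ne (by simp), upd_ne (by simp)]; exact hy)
      (h .i nofun) (h .pw nofun)
      (fun t ht => Fin.isLt _) h3 (top_lt hQ.hB htop hq) hQ.hC (by omega) (Fin.isLt _)
      (by rw [top_div hQ.hB htop, h1']) (fun i hi hne => by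
        rw [h2']
        intro h9
        apply hne
        rw [← h9, Nat.mul_comm, Nat.mul_add_div (by omega), Nat.div_eq_of_lt (by omega),
          Nat.add_zero]) u
  · intro r hr4
    by_cases hr : r = .AC
    · subst hr
      rw [upd_self]
      rfl
    · rw [upd_ne hr, h r hr4]
      cases r <;> simp_all [lay]
  · intro y
    rw [upd_ne (by simp)]

/-- An assignment needs the time `1`. -/
theorem run_asgT {q : CR ⊕ OL Y} {e : Exp (CR ⊕ OL Y)} {s t : CR ⊕ OL Y → ℕ} {body₀ : Empty →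
    AStmt (CR ⊕ OL Y) Empty} (h : RunA x cc A body₀ k (set q e) s t) (u : ℕ → Bool) :
    RunT x cc A body k 1 (lf (set q e)) s u t u := by
  cases h with
  | asg _ r e _ h =>
    have e1 : (renE id e).eval x cc s = e.eval x cc s := eval_renE _ _ _ _ _
    have h1 := RunT.asg (body := body) (A := A) k 0 q (renE id e) s u (by rw [e1]; exact h)
    rw [e1] at h1
    exact h1

/-! ### Lists of instructions; the remaining time is a difference -/

theorem run_consS {n N : ℕ} {b₀ : AStmt (CR ⊕ OL Y) Empty} {L : List (AStmt (CR ⊕ OL Y) Empty)}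
    {s t r : CR ⊕ OL Y → ℕ} {u v w : ℕ → Bool} (h₁ : RunT x cc A body k n (lf b₀) s u t v)
    (hN : n + 1 ≤ N) (h₂ : RunT x cc A body k (N - n - 1) (lf (sqn L)) t v r w) :
    RunT x cc A body k N (lf (sqn (b₀ :: L))) s u r w :=
  (RunT.seq _ _ _ _ _ _ _ _ _ _ _ h₁ h₂).mono le_rfl (by omega) le_rfl

theorem run_setrS {N : ℕ} {r : OL Y} {e : Exp (CR ⊕ OL Y)} {v : ℕ}
    {L : List (AStmt (CR ⊕ OL Y) Empty)} {s' : CR ⊕ OL Y → ℕ} {u w : ℕ → Bool}
    (hv : e.eval x cc (Sum.elim c l) = v) (hA : v < A) (hN : 2 ≤ N)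
    (h : RunT x cc A body k (N - 2) (lf (sqn L)) (Sum.elim c (upd l r v)) u s' w) :
    RunT x cc A body k N (lf (sqn (set (Sum.inr r) e :: L))) (Sum.elim c l) u s' w :=
  (run_setT v hv hA (by rw [upd_inr]; exact h)).mono le_rfl (by omega) le_rfl

theorem run_nilS {N : ℕ} {s : CR ⊕ OL Y → ℕ} {u : ℕ → Bool} (hN : 1 ≤ N) :
    RunT x cc A body k N (lf (sqn [])) s u s u :=
  (run_nilT (n := 0)).mono le_rfl hN le_rfl

/-! ### The programs of `PackC.lean` -/

theorem renE_renE {R₀ R₁ R₂ : Type} (ρ : R₀ → R₁) (σ : R₁ → R₂) (e : Exp R₀) :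
    renE σ (renE ρ e) = renE (σ ∘ ρ) e := by
  induction e with
  | var r => rfl
  | lit k => rfl
  | add a b ha hb => simp only [renE, ha, hb]
  | sub a b ha hb => simp only [renE, ha, hb]
  | mul a b ha hb => simp only [renE, ha, hb]
  | div a b ha hb => simp only [renE, ha, hb]
  | mod a b ha hb => simp only [renE, ha, hb]
  | tab f k a ha => simp only [renE, ha]
  | inp a ha => simp only [renE, ha]

theorem lf_renA {R₀ R : Type} (ρ : R₀ → R) (a : AStmt R₀ Empty) :
    (lf (renA ρ (Empty.elim : Empty → Empty) a) : NStmt R F) = NC.ren ρ Empty.elim a := by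
  induction a with
  | skip => rfl
  | prim p =>
    show asg (ρ p.reg) (renE id (renE ρ p.exp)) = asg (ρ p.reg) (renE ρ p.exp)
    rw [renE_renE]
    rfl
  | seq a b ha hb =>
    show Stmt.seq (lf (renA ρ _ a)) (lf (renA ρ _ b)) = _
    rw [ha, hb]
    rfl
  | ite q a b ha hb =>
    show Stmt.ite (ρ q) (lf (renA ρ _ a)) (lf (renA ρ _ b)) = _
    rw [ha, hb]
    rfl
  | loop q a ha =>
    show Stmt.loop (ρ q) (lf (renA ρ _ a)) = _
    rw [ha]
    rfl
  | call f => exact f.elim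

/-- The time of a program of `PackC.lean`. -/
theorem run_rdT {A₀ : ℕ} (hA₀ : A₀ ≤ A) {a : AStmt Rd Empty} {t : Rd → ℕ}
    (h : RunA x cc A₀ nob k a (fun r => l (.loc r)) t) (hl : ∀ r, l (.loc r) < A₀)
    (u : ℕ → Bool) :
    RunT x cc A body k (tb (A₀ ^ Nat.card Rd) a) (lf (rd a)) (Sum.elim c l) u
      (mrg (fun r => Sum.inr (.loc r)) t (Sum.elim c l)) u := by
  rw [rd, lf_renA]
  exact (RunA.time' (body := body) (φ := (Empty.elim : Empty → F)) rd_inj (nocall_empty a) k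
    (s := Sum.elim c l) h hl u).mono le_rfl le_rfl hA₀

/-! ### The operations -/

/-- The bound for the registers of the programs of `PackC.lean`. -/
abbrev wN (b g : ℕ) : ℕ := RR 6 b g ^ (g + 2)

theorem RR_big (hb : 2 ≤ b) (hg : 1 ≤ g) : 25 ≤ RR 6 b g ∧ b < RR 6 b g ∧ g < RR 6 b g := by
  have h1 : 2 * b ≤ b ^ 2 := by
    rw [pow_two]
    exact Nat.mul_le_mul_right _ hb
  have h2 : 1 * b ^ 2 ≤ g * b ^ 2 := Nat.mul_le_mul_right _ hg
  have h3 : g * 4 ≤ g * b ^ 2 := Nat.mul_le_mul_left _ (by omega)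
  simp only [RR, Nat.mul_assoc]
  omega

theorem wN_big (hb : 2 ≤ b) (hg : 1 ≤ g) : RR 6 b g < wN b g ∧ RR 6 b g ^ (g - 1) < wN b g ∧
    b ^ g ≤ wN b g := by
  obtain ⟨h1, h2, h3⟩ := RR_big hb hg
  refine ⟨?_, Nat.pow_lt_pow_right (by omega) (by omega), ?_⟩
  · calc RR 6 b g = RR 6 b g ^ 1 := (pow_one _).symm
      _ < RR 6 b g ^ (g + 2) := Nat.pow_lt_pow_right (by omega) (by omega)
  · exact (Nat.pow_le_pow_left h2.le g).trans (Nat.pow_le_pow_right (by omega) (by omega))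

theorem layRd_lt (hb : 2 ≤ b) (hg : 1 ≤ g) (r : Rd) : layRd b g r < wN b g := by
  obtain ⟨h1, h2, h3⟩ := RR_big hb hg
  obtain ⟨h4, h5, h6⟩ := wN_big hb hg
  cases r <;> simp only [layRd] <;> omega

theorem upd_lt {R : Type} {s : R → ℕ} {N : ℕ} (h : ∀ r, s r < N) {q : R} {v : ℕ} (hv : v < N) :
    ∀ r, upd s q v r < N := by
  intro r
  by_cases h1 : r = q
  · subst h1
    rw [upd_self]
    exact hv
  · rw [upd_ne h1]
    exact h r

/-- The time of the programs of `PackC.lean`. -/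
noncomputable def tau2 (b g : ℕ) : ℕ :=
  tb (wN b g ^ Nat.card Rd) (useP (F := Empty)) + tb (wN b g ^ Nat.card Rd) (storeP (F := Empty)) +
    tb (wN b g ^ Nat.card Rd) (checkP (F := Empty))

/-- The time of the operations. -/
noncomputable def tauO (K B T b g : ℕ) : ℕ :=
  8 * Nat.size (b ^ g - 1) + 12 * (2 * B * (K + 1)) + 12 * ((T + 1) * (K + 1)) + 6 * (T + 1) +
    6 * ((T + 1) / B) + tau2 b g + 100

theorem loc_upd_lt {r₀ : Rd} {v : ℕ} {N : ℕ} (h : ∀ r, l (.loc r) < N) (hv : v < N) :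
    ∀ r, upd l (.loc r₀) v (.loc r) < N := by
  intro r
  by_cases h1 : r = r₀
  · subst h1
    rw [upd_self]
    exact hv
  · rw [upd_ne (by simpa using h1)]
    exact h r

theorem run_useOT' (hQ : Bnd K B T b g A) (hj : c .ji ≤ K) {y : Fin (b ^ g)}
    (hw : c .w = y.val) {w : Om 6 b g} (hR : st.R (pos B (c .lp)) (c .ji) = w)
    {st' : St (gad (le_refl (b ^ g))) (ℕ → Bool)}
    (h1' : st'.R (pos B (c .lp)) (c .ji) = w + dd (le_refl (b ^ g)) y)
    (h2' : ∀ p < 2 * B, ∀ i < K + 1, ¬(p = pos B (c .lp) ∧ i = c .ji) → st'.R p i = st.R p i)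
    (h3' : st'.tau = st.tau) (h4' : st'.rd = st.rd) (h5' : st'.cl = st.cl)
    (h6' : st'.fail = st.fail) (u : ℕ → Bool) :
    RunT x cc A body k (12 * (2 * B * (K + 1)) + tau2 b g + 50)
      (lf (sqn [getR K, set (Sum.inr (.loc .s)) (vl .w), rd useP, putR K,
      set (Sum.inr (.loc .W)) 0, set (Sum.inr (.loc .s)) 0]))
      (Sum.elim c (lay pv K B T st)) u (Sum.elim c (lay pv K B T st')) u := by
  have h2 := hQ.two_lt
  obtain ⟨b1, b2, b3⟩ := RR_big hQ.hb hQ.hg
  obtain ⟨b4, b5, b6⟩ := wN_big hQ.hb hQ.hg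
  have b7 : ∀ r, lay pv K B T st (.loc r) < wN b g := layRd_lt hQ.hb hQ.hg
  refine run_consS (run_getRT hQ lays_lay hj u) (by simp only [tau2, wN]; omega) ?_
  refine run_setrS (v := y) (by simpa using hw) (y.isLt.trans_le hQ.N_le) (by simp only [tau2, wN]; omega) ?_
  rw [hR]
  refine run_consS (run_rdT hQ.W_le (run_useP (A := wN b g) (le_refl (b ^ g)) (by norm_num)
    le_rfl b6 (by omega) (m := 6) (p := w) (v := y) ?_ ?_ ?_ ?_)
    (loc_upd_lt (loc_upd_lt b7 (pack_lt _)) (y.isLt.trans_le b6)) u) (by simp only [tau2, wN]; omega) ?_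
  · constructor <;> simp [lay, layRd]
  · simp [lay, layRd]
  · simp
  · simp
  rw [mrg1]
  obtain ⟨l₁, h3, h4, h5⟩ := run_putRT (x := x) (cc := cc) (body := body) (k := k) (c := c) hQ
    (((lays_lay (pv := pv) (K := K) (B := B) (T := T) (st := st)).loc .W (pack w)).loc .s
      y |>.loc .W (pack (w + dd (le_refl (b ^ g)) y))) hj
    (v := w + dd (le_refl (b ^ g)) y) (by simp) h1' h2' h3' h4' h5' h6' u
  refine run_consS h3 (by simp only [tau2, wN]; omega) (run_setrS (v := 0) rfl (by omega) (by simp only [tau2, wN]; omega) (run_setrS (v := 0) rfl (by omega) (by simp only [tau2, wN]; omega)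
    ((run_nilS (by simp only [tau2, wN]; omega)).cast ?_)))
  rw [((h4.loc .W 0).loc .s 0).eq fun r => ?_]
  cases r <;> simp [h5, lay, layRd]

theorem run_storeOT' (hQ : Bnd K B T b g A)
    (hp : c .lp ≤ T) (hj : c .ji ≤ K) {y : Fin (b ^ g)} (hw : c .w = y.val)
    {w : Om 6 b g} (hR : st.R (pos B (c .lp)) (c .ji) = w)
    {st' : St (gad (le_refl (b ^ g))) (ℕ → Bool)}
    (h1' : st'.R (pos B (c .lp)) (c .ji) = w + -cst (ev (le_refl (b ^ g)) w y))
    (h2' : ∀ p < 2 * B, ∀ i < K + 1, ¬(p = pos B (c .lp) ∧ i = c .ji) → st'.R p i = st.R p i)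
    (h3' : st'.tau (c .lp) (c .ji) = ev (le_refl (b ^ g)) w y)
    (h4' : ∀ p < T + 1, ∀ i < K + 1, ¬(p = c .lp ∧ i = c .ji) → st'.tau p i = st.tau p i)
    (h5' : st'.rd = st.rd) (h6' : st'.cl = st.cl) (h7' : st'.fail = st.fail) (u : ℕ → Bool) :
    RunT x cc A body k (12 * (2 * B * (K + 1)) + 6 * ((T + 1) * (K + 1)) + tau2 b g + 80)
      (storeO K) (Sum.elim c (lay pv K B T st)) u (Sum.elim c (lay pv K B T st')) u := by
  have h2 := hQ.two_lt
  obtain ⟨b1, b2, b3⟩ := RR_big hQ.hb hQ.hg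
  obtain ⟨b4, b5, b6⟩ := wN_big hQ.hb hQ.hg
  have b7 : ∀ r, lay pv K B T st (.loc r) < wN b g := layRd_lt hQ.hb hQ.hg
  unfold storeO
  refine run_consS (run_getRT hQ lays_lay hj u) (by simp only [tau2, wN]; omega) ?_
  refine run_setrS (v := y) (by simpa using hw) (y.isLt.trans_le hQ.N_le) (by simp only [tau2, wN]; omega) ?_
  rw [hR]
  refine run_consS (run_rdT hQ.W_le (run_storeP (A := wN b g) (le_refl (b ^ g)) (by norm_num)
    le_rfl b6 b4 (m := 6) (p := w) (v := y) ?_ ?_ ?_ ?_)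
    (loc_upd_lt (loc_upd_lt b7 (pack_lt _)) (y.isLt.trans_le b6)) u) (by simp only [tau2, wN]; omega) ?_
  · constructor <;> simp [lay, layRd]
  · simp [lay, layRd]
  · simp
  · simp
  rw [mrg2]
  obtain ⟨l₁, h3, h4, h5⟩ := run_putRT (x := x) (cc := cc) (body := body) (k := k) (c := c) hQ
    ((((lays_lay (pv := pv) (K := K) (B := B) (T := T) (st := st)).loc .W (pack w)).loc .s
      y).loc .e (ev (le_refl (b ^ g)) w y).val |>.loc .W (pack (w +
      -cst (ev (le_refl (b ^ g)) w y)))) hj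
    (v := w + -cst (ev (le_refl (b ^ g)) w y)) (by simp)
    (st' := { st with R := st'.R }) h1' h2' rfl rfl rfl rfl u
  refine run_consS h3 (by simp only [tau2, wN]; omega) ?_
  obtain ⟨l₂, h6, h7, h8⟩ := run_putTT (x := x) (cc := cc) (body := body) (k := k) (c := c) hQ
    h4 (by rw [h5]; simp [lay, layRd]) hp hj (v := ev (le_refl (b ^ g)) w y)
    (by rw [h5]; simp) (st' := st') h3' h4' rfl h5' h6' h7' u
  refine run_consS h6 (by simp only [tau2, wN]; omega) (run_setrS (v := 0) rfl (by omega) (by simp only [tau2, wN]; omega) (run_setrS (v := 0) rfl (by omega) (by simp only [tau2, wN]; omega)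
    (run_setrS (v := 0) rfl (by omega) (by simp only [tau2, wN]; omega) ((run_nilS (by simp only [tau2, wN]; omega)).cast ?_))))
  rw [(((h7.loc .W 0).loc .s 0).loc .e 0).eq fun r => ?_]
  cases r <;> simp [h8, h5, lay, layRd]

theorem run_checkOT' (hQ : Bnd K B T b g A)
    (hp : c .lp ≤ T) (hj : c .ji ≤ K) {y : Fin (b ^ g)} (hw : c .w = y.val) (hn : c .cn ≤ 6)
    {w : Om 6 b g} (hR : st.R (pos B (c .lp)) (c .ji) = w)
    {τ : ZMod (RR 6 b g)} (hτ : st.tau (c .lp) (c .ji) = τ)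
    {st' : St (gad (le_refl (b ^ g))) (ℕ → Bool)}
    (h1' : st'.R (pos B (c .lp)) (c .ji) =
      w + (cst τ - c .cn • dd (le_refl (b ^ g)) y))
    (h2' : ∀ p < 2 * B, ∀ i < K + 1, ¬(p = pos B (c .lp) ∧ i = c .ji) → st'.R p i = st.R p i)
    (h3' : st'.tau = st.tau) (h5' : st'.rd = st.rd) (h6' : st'.cl = st.cl)
    (h7' : st'.fail = (st.fail || decide ((ev (le_refl (b ^ g)) w y).val ≠ 0)))
    (u : ℕ → Bool) :
    RunT x cc A body k (12 * (2 * B * (K + 1)) + 6 * ((T + 1) * (K + 1)) + tau2 b g + 90)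
      (checkO K) (Sum.elim c (lay pv K B T st)) u (Sum.elim c (lay pv K B T st')) u := by
  have h2 := hQ.two_lt
  obtain ⟨b1, b2, b3⟩ := RR_big hQ.hb hQ.hg
  obtain ⟨b4, b5, b6⟩ := wN_big hQ.hb hQ.hg
  have b7 : ∀ r, lay pv K B T st (.loc r) < wN b g := layRd_lt hQ.hb hQ.hg
  have b8 : c .cn < wN b g := by omega
  unfold checkO
  refine run_consS (run_getRT hQ lays_lay hj u) (by simp only [tau2, wN]; omega) ?_
  refine run_consS (run_getTT hQ (lays_lay.loc _ _) (by simp [lay, layRd]) hp hj u) (by simp only [tau2, wN]; omega) ?_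
  refine run_setrS (v := y) (by simpa using hw) (y.isLt.trans_le hQ.N_le) (by simp only [tau2, wN]; omega) ?_
  refine run_setrS (v := c .cn) (by simp) (by have := hQ.r_lt; omega) (by simp only [tau2, wN]; omega) ?_
  rw [hR, hτ]
  refine run_consS (run_rdT hQ.W_le (run_checkP (A := wN b g) (le_refl (b ^ g)) (by norm_num)
    le_rfl b6 b4 (m := 6) (p := w) (v := y) (τ := τ) ?_ ?_ ?_ ?_ ?_ ?_)
    (loc_upd_lt (loc_upd_lt (loc_upd_lt (loc_upd_lt b7 (pack_lt _))
      ((ZMod.val_lt (n := RR 6 b g) τ).trans b4)) (y.isLt.trans_le b6)) b8) u) (by simp only [tau2, wN]; omega) ?_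
  · constructor <;> simp [lay, layRd]
  · simp [lay, layRd]
  · simp
  · simp
  · simp
  · simp
    omega
  rw [mrg2]
  rw [show (upd (upd (upd (upd (lay pv K B T st) (.loc .W) (pack w)) (.loc .t) _) (.loc .s)
      (y : ℕ)) (.loc .n) (c .cn)) (.loc .n) = c .cn from upd_self _ _ _]
  obtain ⟨l₀, h3, h4, h5⟩ := run_failE (x := x) (cc := cc) (body := nob) (k := k) (c := c)
    (A := A) h2.le ((((((lays_lay (pv := pv) (K := K) (B := B) (T := T) (st := st)).loc .W
      (pack w)).loc .t (ZMod.val (n := (gad (le_refl (b ^ g))).r) τ)).loc .s y).loc .n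
      (c .cn)).loc .e (ev (le_refl (b ^ g)) w y).val |>.loc .W (pack (w +
      (cst τ - c .cn • dd (le_refl (b ^ g)) y)))) (ye := vr (.loc .e))
    (v := (ev (le_refl (b ^ g)) w y).val) (by simp)
    (st' := { st with fail := st'.fail }) h7' rfl rfl rfl rfl
  refine run_consS (run_asgT h3 u) (by simp only [tau2, wN]; omega) ?_
  obtain ⟨l₁, h6, h7, h8⟩ := run_putRT (x := x) (cc := cc) (body := body) (k := k) (c := c) hQ
    h4 hj (v := w + (cst τ - c .cn • dd (le_refl (b ^ g)) y)) (by rw [h5]; simp)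
    (st' := st') h1' h2' h3' h5' h6' rfl u
  refine run_consS h6 (by simp only [tau2, wN]; omega) (run_setrS (v := 0) rfl (by omega) (by simp only [tau2, wN]; omega) (run_setrS (v := 0) rfl (by omega) (by simp only [tau2, wN]; omega)
    (run_setrS (v := 0) rfl (by omega) (by simp only [tau2, wN]; omega) (run_setrS (v := 0) rfl (by omega) (by simp only [tau2, wN]; omega)
    (run_setrS (v := 0) rfl (by omega) (by simp only [tau2, wN]; omega) ((run_nilS (by simp only [tau2, wN]; omega)).cast ?_))))))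
  rw [(((((h7.loc .W 0).loc .s 0).loc .e 0).loc .n 0).loc .t 0).eq fun r => ?_]
  cases r <;> simp [h8, h5, lay, layRd]

end

section trs

variable {α F Y : Type} {b g : ℕ}
variable {x : List α} {cc : Cell α → ℕ} {A k τ : ℕ} {body : F → NStmt (CR ⊕ OL Y) F}
variable {pv : Y → ℕ}
variable {S : Scheme (Fin (b ^ g))} {B T : ℕ} {acc : Fin (b ^ g) → Prop} {hN : 0 < b ^ g}

theorem tr_of_runT {st' : St (mkP S B T acc hN).G (ℕ → Bool)} {c' : CR → ℕ}
    {a : NStmt (CR ⊕ OL Y) F} {c : CR → ℕ} {st : St (mkP S B T acc hN).G (ℕ → Bool)}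
    (hrd : (∀ t ≤ T, st.rd t < 2 * S.K + 2) → ∀ t ≤ T, st'.rd t < 2 * S.K + 2)
    (hR : (∀ t ≤ T, st.rd t < 2 * S.K + 2) → RunT x cc A body k τ a
      (Sum.elim c (lay pv S.K B T st)) st.u (Sum.elim c' (lay pv S.K B T st')) st'.u) :
    TrT x cc A body Sum.inl (mkP S B T acc hN) (RepO pv S.K B T) k τ a c st (fun d => d = c')
      st' := by
  intro s hs hc
  have hs1 : s = Sum.elim c (lay pv S.K B T st) := by
    funext r
    cases r with
    | inl r => exact hc r
    | inr r => exact hs.1 r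
  subst hs1
  exact ⟨_, c', hR hs.2, ⟨fun _ => rfl, hrd hs.2⟩, fun _ => rfl, rfl⟩

/-- More time. -/
theorem TrT.mono {τ' : ℕ} (hτ : τ ≤ τ') {st' : St (mkP S B T acc hN).G (ℕ → Bool)}
    {Q : (CR → ℕ) → Prop}
    {a : NStmt (CR ⊕ OL Y) F} {c : CR → ℕ} {st : St (mkP S B T acc hN).G (ℕ → Bool)}
    (h : TrT x cc A body Sum.inl (mkP S B T acc hN) (RepO pv S.K B T) k τ a c st Q st') :
    TrT x cc A body Sum.inl (mkP S B T acc hN) (RepO pv S.K B T) k τ' a c st Q st' := by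
  intro s hs hc
  obtain ⟨s', c', h1, h2⟩ := h s hs hc
  exact ⟨s', c', h1.mono le_rfl hτ le_rfl, h2⟩

/-- The specifications of all operations, with a bound for the time. -/
theorem opsOT (hQ : Bnd S.K B T b g A) {sch : OF → NStmt (CR ⊕ OL Y) F}
    (hs : SchOpsT x cc A body (mkP S B T acc hN) (RepO pv S.K B T) sch k τ)
    (hτ : tauO S.K B T b g ≤ τ) :
    OpsT x cc A body Sum.inl Fin.val (mkP S B T acc hN) (RepO pv S.K B T) (opO S.K sch) k τ where
  use := by
    intro c st hp hj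
    refine tr_of_runT (c' := CM.upd c .w (gval (b ^ g) st.u)) id fun hrd => ?_
    have h2 := hQ.two_lt
    have hg : RunT x cc A body k (8 * Nat.size (b ^ g - 1) + 11)
        (guess (Sum.inl .w) (Sum.inr .rN) (Sum.inr .i) (Sum.inr .pw))
        (Sum.elim c (lay pv S.K B T st)) st.u
        (Sum.elim (CM.upd c .w (gval (b ^ g) st.u)) (lay pv S.K B T st))
        (grest (b ^ g) st.u) :=
      (run_guessT (R := CR ⊕ OL Y) (s := Sum.elim c (lay pv S.K B T st)) (out := Sum.inl CR.w)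
      (rN := Sum.inr OL.rN) (i := Sum.inr OL.i) (b := Sum.inr OL.pw) (by simp) (by simp) (by simp) (by simp) (by simp)
      (by simp) rfl rfl hQ.hN hN k st.u).cast (upd_inl _ _ _ _)
    have hj' : CM.upd c .w (gval (b ^ g) st.u) .ji ≤ S.K := by
      rw [upd_ne (by simp)]
      exact hj
    refine RunT.cons (m := 12 * (2 * B * (S.K + 1)) + tau2 b g + 50 + (0 + 1) + 1) hg ?_ ?_
    · refine RunT.cons (run_useOT' (st := st) (c := CM.upd c .w (gval (b ^ g) st.u)) hQ hj'
        (y := ⟨gval (b ^ g) st.u, gval_lt hN _⟩) (by simp) (hR := rfl)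
        (st' := ((mkP S B T acc hN).use (pos B (c .lp)) (c .ji) st).2)
        ?_ ?_ rfl rfl rfl rfl _) (RunT.nil (n := 0)) le_rfl
      · simp only [ne_eq, reduceCtorEq, not_false_eq_true, upd_ne]
        exact addAt_self _ _ _ _
      · intro p _ i _ hne
        simp only [ne_eq, reduceCtorEq, not_false_eq_true, upd_ne] at hne
        show addAt _ _ _ _ _ _ = _
        simp only [addAt, if_neg hne]
    · refine le_trans ?_ hτ
      simp only [tauO]
      omega
  store := by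
    intro c st y hp hj hw
    refine TrT.mono (τ := 12 * (2 * B * (S.K + 1)) + 6 * ((T + 1) * (S.K + 1)) + tau2 b g + 80)
      (le_trans (by simp only [tauO]; omega) hτ) ?_
    refine tr_of_runT (c' := c) id fun hrd => ?_
    show RunT x cc A body k _ (storeO S.K) (Sum.elim c (lay pv S.K B T st)) st.u
      (Sum.elim c (lay pv S.K B T ((mkP S B T acc hN).store (c .lp) (c .ji) y st))) st.u
    refine run_storeOT' (st := st) (st' := (mkP S B T acc hN).store (c .lp) (c .ji) y st) hQ hp hj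
      hw (hR := rfl) ?_ ?_ ?_ ?_ rfl rfl rfl _
    · exact addAt_self _ _ _ _
    · exact fun p _ i _ hne => if_neg hne
    · exact if_pos ⟨rfl, rfl⟩
    · exact fun p _ i _ hne => if_neg hne
  check := by
    intro c st y hp hj hw hn
    refine TrT.mono (τ := 12 * (2 * B * (S.K + 1)) + 6 * ((T + 1) * (S.K + 1)) + tau2 b g + 90)
      (le_trans (by simp only [tauO]; omega) hτ) ?_
    refine tr_of_runT (c' := c) id fun hrd => ?_
    show RunT x cc A body k _ (checkO S.K) (Sum.elim c (lay pv S.K B T st)) st.u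
      (Sum.elim c (lay pv S.K B T ((mkP S B T acc hN).check (c .lp) (c .ji) (c .cn) y st))) st.u
    refine run_checkOT' (st := st)
      (st' := (mkP S B T acc hN).check (c .lp) (c .ji) (c .cn) y st) hQ hp hj hw hn (hR := rfl)
      (hτ := rfl) ?_ ?_ rfl rfl rfl ?_ _
    · exact addAt_self _ _ _ _
    · exact fun p _ i _ hne => if_neg hne
    · show (st.fail || decide _) = _
      congr 1
      refine decide_eq_decide.2 (not_congr ?_)
      exact (ZMod.val_eq_zero _).symm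
  rdget := by
    intro c st hp
    refine TrT.mono (τ := 6 * (T + 1) + 14) (le_trans (by simp only [tauO]; omega) hτ) ?_
    exact tr_of_runT (c' := CM.upd c .q (st.rd (c .lp))) id fun hrd =>
      run_getDT hQ hrd lays_lay hp _
  rdset := by
    intro c st hp hq
    refine TrT.mono (τ := 6 * (T + 1) + 14) (le_trans (by simp only [tauO]; omega) hτ) ?_
    refine tr_of_runT (c' := c) ?_ fun hrd => ?_
    · intro h t ht
      show (if _ then _ else _) < _
      split_ifs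
      · have : c .q < 2 * S.K := hq
        omega
      · exact h t ht
    · obtain ⟨l', h1, h2, h3⟩ := run_putDT (x := x) (cc := cc) (body := body) (k := k) (c := c)
        hQ hrd (lays_lay (pv := pv)) hp (by have : c .q < 2 * S.K := hq; omega)
        (st' := (mkP S B T acc hN).setRd st (c .lp) (c .q)) (if_pos rfl)
        (fun p _ hne => if_neg hne) rfl rfl rfl rfl st.u
      rw [← h2.eq fun y => by rw [h3]; rfl]
      exact h1
  clget := by
    intro c st hp htop
    refine TrT.mono (τ := 6 * ((T + 1) / B) + 14) (le_trans (by simp only [tauO]; omega) hτ) ?_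
    exact tr_of_runT (c' := CM.upd c .a (st.cl (c .lp)).val) id fun hrd =>
      run_getLT hQ lays_lay hp htop _
  clset := by
    intro c st y hp htop hy
    refine TrT.mono (τ := 6 * ((T + 1) / B) + 14) (le_trans (by simp only [tauO]; omega) hτ) ?_
    refine tr_of_runT (c' := c) id fun hrd => ?_
    obtain ⟨l', h1, h2, h3⟩ := run_putLT (x := x) (cc := cc) (body := body) (k := k) (c := c)
      hQ (lays_lay (pv := pv) (K := S.K)) hp htop hy
      (st' := (mkP S B T acc hN).setCl st (c .lp) y) (if_pos rfl)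
      (fun p hne => if_neg hne) rfl rfl rfl rfl st.u
    rw [← h2.eq fun y => by rw [h3]; rfl]
    exact h1
  arg := hs.arg
  upd := hs.upd
  ini := hs.ini
  out := hs.out
  v0 := hs.v0
  test := hs.test

end trs

end Pool.Agent.Lib.MP_9277c3_lc.NS
end

section
/-!
# The machine for a recursion scheme, with a bound for the time
-/
namespace Pool.Agent.Lib.MP_9277c3_lc.NS

open CM NC

/-- The engine for one input `x`: the parameter, the initial state, and the correctness of the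
programs for the operations and of the initial program, with bounds for the time. -/
structure InstT {α R F : Type} (x : List α) (cc : Cell α → ℕ) (A k τ : ℕ) (body : F → NStmt R F)
    (ρ : CR → R) (op : OF → NStmt R F) (a₀ : NStmt R F) (fl : R) (L : Prop) where
  X : Type
  en : X → ℕ
  P : Par X (ℕ → Bool)
  Rep : (R → ℕ) → St P.G (ℕ → Bool) → Prop
  st₀ : St P.G (ℕ → Bool)
  k₀ : ℕ
  τ₀ : ℕ
  τ₁ : ℕ
  congr : ∀ s s' st, Rep s st → (∀ r, (∀ c, ρ c ≠ r) → s' r = s r) → Rep s' st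
  rfl' : ∀ s st, Rep s st → s fl = st.fail.toNat
  ops : OpsT x cc A body ρ en P Rep op k₀ τ₀
  hA : P.T + 2 * P.S.K + 10 < A
  hk : k₀ + P.T * (P.S.K + 2) ≤ k
  hτ : τ₁ + bt P.S.K τ₀ P.T + 10 ≤ τ
  hB : 1 ≤ P.B
  hK : 1 ≤ P.S.K
  hT : IsTop P.B P.T
  inj : Function.Injective P.nxt
  surj : ∀ y g, ∃ g', P.nxt g' = (y, g)
  init : ∀ u, ∃ s c, RunT x cc A body k τ₁ a₀ (fun _ => 0) u s u ∧
    Rep s { st₀ with u := u } ∧ (∀ r, s (ρ r) = c r) ∧ c .lev = P.T ∧ Cst P c
  fail₀ : st₀.fail = false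
  acc : L ↔ P.acc (P.S.val P.T (st₀.cl P.T))

section

variable {α R F : Type}

theorem InstT.run {x : List α} {cc : Cell α → ℕ} {A k τ : ℕ} {body : F → NStmt R F} {ρ : CR → R}
    {op : OF → NStmt R F} {a₀ : NStmt R F} {fl : R} {L : Prop}
    (I : InstT x cc A k τ body ρ op a₀ fl L) (hρ : Function.Injective ρ) {φ : CF → F}
    (hseg : body (φ .seg) = segC ρ φ op) (hrun : body (φ .run) = runC ρ φ op) (u : ℕ → Bool) :
    ∃ t, RunT x cc A body k τ (mainC ρ φ op a₀ fl) (fun _ => 0) u t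
        (I.P.body I.P.T { I.st₀ with u := u }).u ∧
      (t (ρ .q) ≠ 0 ↔ (I.P.body I.P.T { I.st₀ with u := u }).fail = false) := by
  have hA := I.hA
  obtain ⟨s, c, h1, h2, h3, h4, h5⟩ := I.init u
  have h6 := main_trT hρ I.congr I.ops I.hA hseg hrun I.hT I.P.T le_rfl c
    { I.st₀ with u := u } h5 h4 (fun h => absurd h (lt_irrefl _))
  obtain ⟨s', c', h7, h8, -, -⟩ := h6 s h2 h3
  have h9 := I.rfl' _ _ h8
  have h10 : RunT x cc A body k (0 + 1) (asg (ρ .q) (1 - Exp.var fl) : NStmt R F) s'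
      (I.P.body I.P.T { I.st₀ with u := u }).u (upd s' (ρ .q) (1 - s' fl))
      (I.P.body I.P.T { I.st₀ with u := u }).u :=
    RunT.asg _ _ _ _ _ _ (by show 1 - s' fl < A; omega)
  refine ⟨_, (RunT.seq _ _ _ _ _ _ _ _ _ _ _ h1 (RunT.seq _ _ _ _ _ _ _ _ _ _ _
    (h7.mono I.hk le_rfl le_rfl) (RunT.seq _ _ _ _ _ _ _ _ _ _ _ h10
    (RunT.skip _ 0 _ _)))).mono le_rfl ?_ le_rfl, ?_⟩
  · have := I.hτ
    omega
  · rw [upd_self, h9]
    generalize (I.P.body I.P.T { I.st₀ with u := u }).fail = y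
    cases y <;> simp

/-- **The machine for a recursion scheme.** -/
theorem exists_machineT [Finite α] [Finite R] [Finite F] (cc : Cell α → ℕ) {body : F → NStmt R F}
    {ρ : CR → R} (hρ : Function.Injective ρ) {φ : CF → F} {op : OF → NStmt R F}
    (hseg : body (φ .seg) = segC ρ φ op) (hrun : body (φ .run) = runC ρ φ op)
    (a₀ : NStmt R F) (fl : R) :
    ∃ c : ℕ, ∀ (L : List α → Prop) (A k τ : ℕ → ℕ), (∀ n, 2 ≤ A n) →
      (∀ x, Nonempty (InstT x cc (A x.length) (k x.length) (τ x.length) body ρ op a₀ fl (L x))) →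
      ∃ M : NTM α, (M.AcceptsIn L fun n => c * (Nat.log 2 (A n) + k n + 1)) ∧
        (M.TimeIn fun n => c * (τ n + 1) * (Nat.log 2 (A n) + 1) ^ 3 * (n + 2)) ∧
        M.Unambiguous := by
  obtain ⟨c, hc⟩ := exists_TNTM_of_run cc body (mainC ρ φ op a₀ fl) (ρ .q)
  refine ⟨c, fun L A k τ hA hI => ?_⟩
  obtain ⟨M, hM, hT, hU⟩ := hc L A k τ hA (fun x u => by
    obtain ⟨I⟩ := hI x
    obtain ⟨t, h1, -⟩ := I.run hρ hseg hrun u
    exact ⟨t, _, h1⟩) (fun x => by
    obtain ⟨I⟩ := hI x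
    rw [I.acc, ← specFlow I.X (ℕ → Bool) I.P I.st₀ I.hB I.hK I.hT I.fail₀ I.surj ⟨fun _ => false⟩]
    constructor
    · rintro ⟨u, hu⟩
      obtain ⟨t, h1, h2⟩ := I.run hρ hseg hrun u
      exact ⟨u, t, _, h1, h2.2 hu⟩
    · rintro ⟨u, t, v, h1, h2⟩
      obtain ⟨t', h3, h4⟩ := I.run hρ hseg hrun u
      obtain ⟨rfl, rfl⟩ := h1.toN.det h3.toN
      exact ⟨u, h4.1 h2⟩)
  refine ⟨M, hM, hT, hU ?_⟩
  intro x u u' t t' h1 h2 h3 h4
  obtain ⟨I⟩ := hI x
  obtain ⟨r, g1, g2⟩ := I.run hρ hseg hrun u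
  obtain ⟨r', g1', g2'⟩ := I.run hρ hseg hrun u'
  obtain ⟨rfl, e1⟩ := h1.det g1.toN
  obtain ⟨rfl, e2⟩ := h2.det g1'.toN
  exact flow_uniq I.P I.st₀ I.hB I.hK I.hT I.inj (g2.1 h3) (g2'.1 h4) (e1.symm.trans e2)

end

/-! ### The operations of `Ops.lean` -/

section

variable {α Y : Type}

/-- The engine for one input `x`, with the operations of `Ops.lean`, and bounds for the time. -/
structure InstOT (x : List α) (cc : Cell α → ℕ) (A k τ K : ℕ) (sch : OF → NStmt (CR ⊕ OL Y) CF)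
    (a₀ : NStmt (CR ⊕ OL Y) CF) (L : Prop) where
  b : ℕ
  g : ℕ
  B : ℕ
  T : ℕ
  hN : 0 < b ^ g
  S : Scheme (Fin (b ^ g))
  acc : Fin (b ^ g) → Prop
  pv : Y → ℕ
  x₀ : Fin (b ^ g)
  k₀ : ℕ
  τ₀ : ℕ
  τ₁ : ℕ
  hK : S.K = K
  hK1 : 1 ≤ S.K
  bnd : Bnd S.K B T b g A
  two : ∃ j, b ^ g = 2 ^ j
  hA : T + 2 * S.K + 10 < A
  hk : k₀ + T * (S.K + 2) ≤ k
  hτ₀ : tauO S.K B T b g ≤ τ₀
  hτ : τ₁ + bt S.K τ₀ T + 10 ≤ τ
  hT : IsTop B T
  sops : SchOpsT x cc A (bodyO K sch) (mkP S B T acc hN) (RepO pv S.K B T) sch k₀ τ₀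
  init : ∀ u, ∃ (c : CR → ℕ) (u' : ℕ → Bool), RunT x cc A (bodyO K sch) k τ₁ a₀ (fun _ => 0) u
    (Sum.elim c (lay pv S.K B T (st0 hN T x₀ u'))) u ∧
    c .lev = T ∧ c .cB = B ∧ c .cT = T ∧ c .cK = S.K
  acc_iff : L ↔ acc (S.val T x₀)

/-- The engine with the operations of `Ops.lean`. -/
noncomputable def InstOT.inst {x : List α} {cc : Cell α → ℕ} {A k τ K : ℕ}
    {sch : OF → NStmt (CR ⊕ OL Y) CF} {a₀ : NStmt (CR ⊕ OL Y) CF} {L : Prop}
    (I : InstOT x cc A k τ K sch a₀ L) :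
    InstT x cc A k τ (bodyO K sch) Sum.inl (opO K sch) a₀ (Sum.inr .fl) L where
  X := Fin (I.b ^ I.g)
  en := Fin.val
  P := mkP I.S I.B I.T I.acc I.hN
  Rep := RepO I.pv I.S.K I.B I.T
  st₀ := st0 I.hN I.T I.x₀ fun _ => false
  k₀ := I.k₀
  τ₀ := I.τ₀
  τ₁ := I.τ₁
  congr := fun _ _ _ h h' => RepO.congr h h'
  rfl' := fun _ _ h => h.1 .fl
  ops := by
    have h := opsOT I.bnd I.sops I.hτ₀
    have e : opO I.S.K sch = opO K sch := by rw [I.hK]
    rw [e] at h
    exact h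
  hA := I.hA
  hk := I.hk
  hτ := I.hτ
  hB := I.bnd.hB
  hK := I.hK1
  hT := I.hT
  inj := by
    obtain ⟨j, hj⟩ := I.two
    have : NeZero (I.b ^ I.g) := ⟨I.hN.ne'⟩
    exact nxtB_inj hj
  surj := by
    have : NeZero (I.b ^ I.g) := ⟨I.hN.ne'⟩
    exact nxtB_surj (I.b ^ I.g)
  init := by
    intro u
    obtain ⟨c, u', h1, h2, h3, h4, h5⟩ := I.init u
    refine ⟨_, c, h1, ⟨fun r => ?_, fun t _ => ?_⟩, fun r => rfl, h2, ⟨h3, h4, h5⟩⟩
    · exact congrFun (lay_u I.pv I.S.K I.B I.T rfl rfl rfl rfl rfl) r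
    · show 0 < 2 * I.S.K + 2
      omega
  fail₀ := rfl
  acc := by
    have e : (st0 I.hN I.T I.x₀ (fun _ => false)).cl I.T = I.x₀ := if_pos rfl
    show L ↔ I.acc (I.S.val I.T ((st0 I.hN I.T I.x₀ (fun _ => false)).cl I.T))
    rw [e]
    exact I.acc_iff

/-- **The machine for a recursion scheme**, with the operations of `Ops.lean`. -/
theorem exists_machineOT [Finite α] [Finite Y] (cc : Cell α → ℕ) (K : ℕ)
    (sch : OF → NStmt (CR ⊕ OL Y) CF) (a₀ : NStmt (CR ⊕ OL Y) CF) :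
    ∃ c : ℕ, ∀ (L : List α → Prop) (A k τ : ℕ → ℕ), (∀ n, 2 ≤ A n) →
      (∀ x, Nonempty (InstOT x cc (A x.length) (k x.length) (τ x.length) K sch a₀ (L x))) →
      ∃ M : NTM α, (M.AcceptsIn L fun n => c * (Nat.log 2 (A n) + k n + 1)) ∧
        (M.TimeIn fun n => c * (τ n + 1) * (Nat.log 2 (A n) + 1) ^ 3 * (n + 2)) ∧
        M.Unambiguous := by
  obtain ⟨c, hc⟩ := exists_machineT (R := CR ⊕ OL Y) (F := CF) cc (body := bodyO K sch)
    (ρ := Sum.inl) Sum.inl_injective (φ := id) (op := opO K sch) rfl rfl a₀ (Sum.inr .fl)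
  exact ⟨c, fun L A k τ hA h => hc L A k τ hA fun x => (h x).map InstOT.inst⟩

end

end Pool.Agent.Lib.MP_9277c3_lc.NS
end

section
/-!
# The time of the programs for the functions of the scheme and for the test

All these programs are single assignments.
-/
set_option autoImplicit false

namespace Pool.Agent.Lib.MP_9277c3_lc.NS

open CM NC Dp

section

variable {α R F : Type} {x : List α} {cc : Cell α → ℕ} {A : ℕ} {body : F → NStmt R F}
  {ρ : CR → R} {X : Type} {P : Par X (ℕ → Bool)}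
  {Rep : (R → ℕ) → St P.G (ℕ → Bool) → Prop}

/-- The time of an assignment is `1`. -/
theorem RunN.asg_time {k τ : ℕ} (hτ : 1 ≤ τ) {r : R} {e : Exp R} {s t : R → ℕ} {u v : ℕ → Bool}
    (h : RunN x cc A body k (asg r e) s u t v) : RunT x cc A body k τ (asg r e) s u t v := by
  obtain ⟨n, rfl⟩ : ∃ n, τ = n + 1 := ⟨τ - 1, by omega⟩
  cases h with
  | asg _ _ _ _ _ h => exact RunT.asg _ _ _ _ _ _ h

/-- The specification of an assignment, with the time. -/
theorem Tr.asgT {k τ : ℕ} (hτ : 1 ≤ τ) {r : R} {e : Exp R} {c : CR → ℕ}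
    {st st' : St P.G (ℕ → Bool)} {Q : (CR → ℕ) → Prop}
    (h : Tr x cc A body ρ P Rep k (asg r e) c st Q st') :
    TrT x cc A body ρ P Rep k τ (asg r e) c st Q st' := by
  intro s hs hc
  obtain ⟨s', c', h1, h2⟩ := h s hs hc
  exact ⟨s', c', RunN.asg_time hτ h1, h2⟩

end

section

variable {α : Type} {M : DPDA α} (C : Cd M)
variable {Y : Type} {y₀ : Y} {pv : Y → ℕ} {b g : ℕ} {F : Type} {x : List α} {A k B T : ℕ}
variable {hN : 0 < b ^ g} {body : F → NStmt (CR ⊕ OL Y) F}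

/-- The specifications of the functions of the scheme and of the test, with the time. -/
theorem schOpsT {τ : ℕ} (hτ : 1 ≤ τ) (hp : pv y₀ = x.length + 1) (hA : b ^ g ≤ A) (hA2 : 2 ≤ A)
    (a : ℕ) :
    SchOpsT x C.cc A body (mkP (schX C a x (b ^ g) hN) B T (accXP C a x) hN)
      (RepO pv (schX C a x (b ^ g) hN).K B T) (schP C y₀ a) k τ where
  arg c st y h1 h2 := Tr.asgT hτ ((schOps C hp hA hA2 a).arg c st y h1 h2)
  upd c st y z h1 h2 h3 := Tr.asgT hτ ((schOps C hp hA hA2 a).upd c st y z h1 h2 h3)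
  ini c st y h1 := Tr.asgT hτ ((schOps C hp hA hA2 a).ini c st y h1)
  out c st y h1 := Tr.asgT hτ ((schOps C hp hA hA2 a).out c st y h1)
  v0 c st y h1 := Tr.asgT hτ ((schOps C hp hA hA2 a).v0 c st y h1)
  test c st y h1 := Tr.asgT hτ ((schOps C hp hA hA2 a).test c st y h1)

/-- The specifications of the functions of the scheme and of the negated test, with the time. -/
theorem schOpsNT {τ : ℕ} (hτ : 1 ≤ τ) (hp : pv y₀ = x.length + 1) (hA : b ^ g ≤ A) (hA2 : 2 ≤ A)
    (a : ℕ) :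
    SchOpsT x C.cc A body (mkP (schX C a x (b ^ g) hN) B T (fun y => ¬accXP C a x y) hN)
      (RepO pv (schX C a x (b ^ g) hN).K B T) (schPN C y₀ a) k τ where
  arg c st y h1 h2 := Tr.asgT hτ ((schOpsN C hp hA hA2 a).arg c st y h1 h2)
  upd c st y z h1 h2 h3 := Tr.asgT hτ ((schOpsN C hp hA hA2 a).upd c st y z h1 h2 h3)
  ini c st y h1 := Tr.asgT hτ ((schOpsN C hp hA hA2 a).ini c st y h1)
  out c st y h1 := Tr.asgT hτ ((schOpsN C hp hA hA2 a).out c st y h1)
  v0 c st y h1 := Tr.asgT hτ ((schOpsN C hp hA hA2 a).v0 c st y h1)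
  test c st y h1 := Tr.asgT hτ ((schOpsN C hp hA hA2 a).test c st y h1)

end

end Pool.Agent.Lib.MP_9277c3_lc.NS
end
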