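import Pool.Agent.Lib.MP_9277c3_lc.NS.BndOK
import Pool.Agent.Lib.MP_9277c3_lc.NC.Time
import Pool.Agent.Lib.MP_9277c3_lc.NP.PkOpsT
import Pool.Agent.Lib.MP_9277c3_lc.NS.Top

section
/-!
# Functions bounded by polynomials

`PolyB f`: `f n ≤ (n + 2) ^ C` for some constant `C`. All the small parameters of the machine are
bounded by polynomials, and so is `a ^ (nT c κ n + 1)` for every constant `a`; sums, products,
maxima and powers of such functions, and the bound `tb` for the time of a deterministic program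
without calls, are again bounded by polynomials.
-/
namespace Pool.Agent.Lib.MP_9277c3_lc.NP

open CM CL NS NC

/-- The function is bounded by a polynomial. -/
def PolyB (f : ℕ → ℕ) : Prop := ∃ C, ∀ n, f n ≤ (n + 2) ^ C

theorem le_two_pow_add (a n : ℕ) : a ≤ (n + 2) ^ a :=
  (Nat.lt_two_pow_self (n := a)).le.trans (Nat.pow_le_pow_left (by omega) _)

theorem pow_mono_exp {n a b : ℕ} (h : a ≤ b) : (n + 2) ^ a ≤ (n + 2) ^ b :=
  Nat.pow_le_pow_right (by omega) h

namespace PolyB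

variable {f g h : ℕ → ℕ}

theorem mono (hg : PolyB g) (hfg : ∀ n, f n ≤ g n) : PolyB f := by
  obtain ⟨C, hC⟩ := hg
  exact ⟨C, fun n => (hfg n).trans (hC n)⟩

theorem const (a : ℕ) : PolyB fun _ => a := ⟨a, fun n => le_two_pow_add a n⟩

theorem id : PolyB fun n => n := ⟨1, fun n => by
  simp only [pow_one]
  omega⟩

theorem mul (hf : PolyB f) (hg : PolyB g) : PolyB fun n => f n * g n := by
  obtain ⟨C, hC⟩ := hf
  obtain ⟨D, hD⟩ := hg
  refine ⟨C + D, fun n => ?_⟩
  rw [pow_add]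
  exact Nat.mul_le_mul (hC n) (hD n)

theorem add (hf : PolyB f) (hg : PolyB g) : PolyB fun n => f n + g n := by
  obtain ⟨C, hC⟩ := hf
  obtain ⟨D, hD⟩ := hg
  refine ⟨C + D + 1, fun n => ?_⟩
  have h1 := (hC n).trans (pow_mono_exp (n := n) (show C ≤ C + D by omega))
  have h2 := (hD n).trans (pow_mono_exp (n := n) (show D ≤ C + D by omega))
  have h3 : (n + 2) ^ (C + D) * 2 ≤ (n + 2) ^ (C + D) * (n + 2) :=
    Nat.mul_le_mul_left _ (by omega)
  rw [pow_succ]
  exact le_trans (by omega : f n + g n ≤ (n + 2) ^ (C + D) * 2) h3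

theorem max (hf : PolyB f) (hg : PolyB g) : PolyB fun n => Max.max (f n) (g n) :=
  (hf.add hg).mono fun n => by omega

theorem sub (hf : PolyB f) (g : ℕ → ℕ) : PolyB fun n => f n - g n :=
  hf.mono fun _ => Nat.sub_le _ _

theorem div (hf : PolyB f) (g : ℕ → ℕ) : PolyB fun n => f n / g n :=
  hf.mono fun _ => Nat.div_le_self _ _

theorem pow (hf : PolyB f) (k : ℕ) : PolyB fun n => f n ^ k := by
  obtain ⟨C, hC⟩ := hf
  refine ⟨C * k, fun n => ?_⟩
  rw [pow_mul]
  exact Nat.pow_le_pow_left (hC n) _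

theorem succ (hf : PolyB f) : PolyB fun n => f n + 1 := hf.add (const 1)

theorem log (hf : PolyB f) (b : ℕ) : PolyB fun n => Nat.log b (f n) :=
  hf.mono fun _ => Nat.log_le_self _ _

theorem size (hf : PolyB f) : PolyB fun n => Nat.size (f n) :=
  hf.mono fun n => by
    rw [Nat.size_le]
    exact Nat.lt_two_pow_self

/-- The time of a deterministic program without calls. -/
theorem tb {P T F : Type} (hf : PolyB f) (a : Stmt P T F) : PolyB fun n => NC.tb (f n) a := by
  obtain ⟨c, hc⟩ := tb_le a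
  exact ((const c).mul (hf.succ.pow c)).mono fun n => hc (f n)

/-- The number of states. -/
theorem states {R : Type} (hf : PolyB f) : PolyB fun n => f n ^ Nat.card R := hf.pow _

end PolyB

/-! ### The parameters -/

section

variable {c κ n : ℕ}

theorem two_pow_m (hκ : 64 ≤ κ) (k : ℕ) : PolyB fun n => 2 ^ (k * mP κ n) := by
  refine ⟨k * (5 * Nat.log 2 κ + 22), fun n => ?_⟩
  have h1 := m_le' κ n hκ
  have h2 : 2 ^ Nat.log 2 (n + 2) ≤ n + 2 := Nat.pow_log_le_self _ (by omega)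
  calc 2 ^ (k * mP κ n) ≤ 2 ^ (k * ((5 * Nat.log 2 κ + 22) * Nat.log 2 (n + 2))) :=
        Nat.pow_le_pow_right (by norm_num) (Nat.mul_le_mul_left _ h1)
    _ = (2 ^ Nat.log 2 (n + 2)) ^ (k * (5 * Nat.log 2 κ + 22)) := by
        rw [← pow_mul]
        congr 1
        ring
    _ ≤ (n + 2) ^ (k * (5 * Nat.log 2 κ + 22)) := Nat.pow_le_pow_left h2 _

theorem polyB_m (hκ : 64 ≤ κ) : PolyB (mP κ) :=
  (two_pow_m hκ 1).mono fun n => by
    rw [Nat.one_mul]
    exact Nat.lt_two_pow_self.le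

theorem polyB_T (hκ : 64 ≤ κ) : PolyB (TP κ) := (polyB_m hκ).mono fun _ => T_le_m hκ

theorem polyB_lT (hκ : 64 ≤ κ) : PolyB (lT κ) := (polyB_T hκ).mono fun _ => l_le_T

theorem polyB_d (hκ : 64 ≤ κ) : PolyB (dP κ) := (polyB_m hκ).mono fun _ => d_le_m hκ

theorem polyB_g (hκ : 64 ≤ κ) : PolyB (ng κ) := (PolyB.const 4).mul (polyB_d hκ)

theorem polyB_r (hκ : 64 ≤ κ) : PolyB (nr κ) :=
  ((polyB_T hκ).pow 6).mono fun _ => nr_le hκ

theorem polyB_N (hκ : 64 ≤ κ) : PolyB (nN κ) := (two_pow_m hκ 8).mono fun _ => nN_le hκ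

theorem polyB_W (hκ : 64 ≤ κ) : PolyB (nW κ) := (two_pow_m hκ 60).mono fun _ => nW_le hκ

theorem polyB_top (hκ : 64 ≤ κ) : PolyB fun n => nT c κ n + 1 := by
  have h1 : PolyB fun n => c * (TP κ n * TP κ n) + 1 :=
    ((PolyB.const c).mul ((polyB_T hκ).mul (polyB_T hκ))).succ
  exact h1.mono fun n => by
    unfold nT
    omega

/-- The number of runs of the body on the level `t` is at most `a ^ (t + 1)`. -/
theorem polyB_rounds (hc : 1 ≤ c) (hκ : 64 ≤ κ) (a : ℕ) : PolyB fun n => a ^ (nT c κ n + 1) := by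
  refine (two_pow_m hκ (a * (4 * c))).mono fun n => ?_
  have h1 := nT_le (n := n) hc hκ
  rw [Nat.mul_assoc, pow_mul]
  exact (Nat.pow_le_pow_left (Nat.lt_two_pow_self (n := a)).le _).trans
    (Nat.pow_le_pow_right (Nat.two_pow_pos a) h1)

/-- The number of bits of the large numbers. -/
theorem polyB_log_A (hκ : 64 ≤ κ) : PolyB fun n => Nat.log 2 (nA c κ n) := by
  have h1 : PolyB fun n => 1000 * (c + 1) * (TP κ n * mP κ n) :=
    (PolyB.const _).mul ((polyB_T hκ).mul (polyB_m hκ))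
  exact h1.mono fun n => le_of_eq log_nA

end

end Pool.Agent.Lib.MP_9277c3_lc.NP
end

section
/-!
# The initial program, with a bound for the time

`iniQ` computes the small parameters (all numbers are polynomial in the length of the input, so its time
is given by `RunA.time`); the array `AC = x0 * N ^ (T / b)` is computed by an explicit loop.
-/
namespace Pool.Agent.Lib.MP_9277c3_lc.NS

open Finset CM NC
open Pool.Agent.MP_9277c3_lc.NS (RR)

/-- The numbers of the registers. -/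
def rgNum (r : Rg) : Fin 40 :=
  match r with
  | .cN => 0 | .cm => 1 | .cp => 2 | .cpm => 3 | .cT => 4 | .cQ => 5 | .cw => 6 | .cb => 7
  | .cn => 8 | .R0 => 9 | .R1 => 10 | .R2 => 11 | .S => 12 | .res => 13 | .lev => 14 | .a => 15
  | .v => 16 | .t => 17 | .j => 18 | .om => 19 | .iv => 20 | .e2 => 21 | .x => 22 | .y => 23
  | .c => 24 | .z => 25 | .vz => 26 | .vi => 27 | .vr => 28 | .tg => 29 | .r => 30 | .st => 31
  | .w => 32 | .cd => 33 | .k1 => 34 | .k2 => 35 | .e => 36 | .i => 37 | .d0 => 38 | .acc => 39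

/-- The register with a given number. -/
def rgOf (k : ℕ) : Rg :=
  match k with
  | 0 => .cN | 1 => .cm | 2 => .cp | 3 => .cpm | 4 => .cT | 5 => .cQ | 6 => .cw | 7 => .cb
  | 8 => .cn | 9 => .R0 | 10 => .R1 | 11 => .R2 | 12 => .S | 13 => .res | 14 => .lev | 15 => .a
  | 16 => .v | 17 => .t | 18 => .j | 19 => .om | 20 => .iv | 21 => .e2 | 22 => .x | 23 => .y
  | 24 => .c | 25 => .z | 26 => .vz | 27 => .vi | 28 => .vr | 29 => .tg | 30 => .r | 31 => .st
  | 32 => .w | 33 => .cd | 34 => .k1 | 35 => .k2 | 36 => .e | 37 => .i | 38 => .d0 | _ => .acc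

instance finite_Rg : Finite Rg := by
  have h : Function.LeftInverse (fun k : Fin 40 => rgOf k) rgNum := by
    intro r
    cases r <;> rfl
  exact Finite.of_injective rgNum h.injective

instance finite_RP : Finite RP := by
  refine Finite.of_injective (β := Fin 9) (fun r => match r with
    | .b => 0 | .g => 1 | .r => 2 | .N => 3 | .W => 4 | .pg => 5 | .T => 6 | .ac => 7 | .i => 8) ?_
  intro a b h
  cases a <;> cases b <;> first | rfl | (simp at h)

theorem nocall_of_nc {P T F : Type} {a : Stmt P T F} (h : nc a) : nocall a := by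
  induction a with
  | skip => trivial
  | prim p => trivial
  | seq a b iha ihb => exact ⟨iha h.1, ihb h.2⟩
  | ite t a b iha ihb => exact ⟨iha h.1, ihb h.2⟩
  | loop t a iha => exact iha h
  | call f => exact absurd h id

/-- The program for the small parameters. -/
def iniQ (κ c : ℕ) (startE : Exp Rg) : AStmt (Rg ⊕ RP) Pr :=
  sqn [renA Sum.inl id (CL.initC κ 0),
    set (Sum.inr .b) (Exp.var (Sum.inl .cT) : Exp (Rg ⊕ RP)),
    set (Sum.inr .g) (4 * (Exp.var (Sum.inl .cm) : Exp (Rg ⊕ RP))),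
    set (Sum.inr .r) (6 * (Exp.var (Sum.inr .g) : Exp (Rg ⊕ RP)) * ((Exp.var (Sum.inr .b) : Exp (Rg ⊕ RP)) * (Exp.var (Sum.inr .b) : Exp (Rg ⊕ RP))) + 1),
    set (Sum.inr .N) ((Exp.var (Sum.inl .cQ) : Exp (Rg ⊕ RP)) * (Exp.var (Sum.inl .cQ) : Exp (Rg ⊕ RP)) *
      ((Exp.var (Sum.inl .cQ) : Exp (Rg ⊕ RP)) * (Exp.var (Sum.inl .cQ) : Exp (Rg ⊕ RP)))),
    set (Sum.inr .W) 1,
    set (Sum.inr .i) ((Exp.var (Sum.inr .g) : Exp (Rg ⊕ RP)) + 2),
    Stmt.loop (Sum.inr .i) (sqn [
      set (Sum.inr .W) ((Exp.var (Sum.inr .W) : Exp (Rg ⊕ RP)) * (Exp.var (Sum.inr .r) : Exp (Rg ⊕ RP))),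
      set (Sum.inr .i) ((Exp.var (Sum.inr .i) : Exp (Rg ⊕ RP)) - 1)]),
    set (Sum.inr .pg) ((Exp.var (Sum.inr .W) : Exp (Rg ⊕ RP)) / (Exp.var (Sum.inr .r) : Exp (Rg ⊕ RP)) / (Exp.var (Sum.inr .r) : Exp (Rg ⊕ RP)) /
      (Exp.var (Sum.inr .r) : Exp (Rg ⊕ RP))),
    set (Sum.inr .T) (Exp.lit c * ((Exp.var (Sum.inl .cT) : Exp (Rg ⊕ RP)) * (Exp.var (Sum.inl .cT) : Exp (Rg ⊕ RP))) - 1),
    set (Sum.inr .ac) (renE Sum.inl startE)]

/-- The values of the small parameters. -/
def outQ (c κ n x0 : ℕ) : RP → ℕ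
  | .b => CL.TP κ n
  | .g => ng κ n
  | .r => nr κ n
  | .N => nN κ n
  | .W => nW κ n
  | .pg => nr κ n ^ (ng κ n - 1)
  | .T => nT c κ n
  | .ac => x0
  | .i => 0

section

variable {α : Type} {X : List α} {cc : Cell α → ℕ} {A : ℕ} {body : Pr → AStmt (Rg ⊕ RP) Pr}
  {c κ : ℕ}

theorem nc_iniQ {startE : Exp Rg} : nc (iniQ κ c startE) := by
  have h : nc (renA (Sum.inl : Rg → Rg ⊕ RP) (id : Pr → Pr) (CL.initC κ 0)) := nc_renA nc_initC
  simp [iniQ, sqn, nc, h]

/-- The small parameters are computed. -/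
theorem run_iniQ (hκ : 64 ≤ κ) (h1 : cc Cell.right = 1)
    (h2 : ∀ a, 2 ≤ cc (Cell.letter a)) (h3 : ∀ d, cc d ≤ κ) {startE : Exp Rg} {x0 : ℕ}
    (hA0 : 2 ^ CL.eP 0 κ X.length ≤ A) (hW : nW κ X.length < A) (hNA : nN κ X.length < A)
    (hTA : nT c κ X.length < A)
    (hx : startE.eval X cc (CL.initS 0 κ X.length) = x0) (hx0 : x0 < nN κ X.length) :
    RunA X cc A body 0 (iniQ κ c startE) (fun _ => 0)
      (Sum.elim (CL.initS 0 κ X.length) (outQ c κ X.length x0)) := by
  set n := X.length with hn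
  have hd := CL.d_pos (n := n) hκ
  have hTP := CL.T_ge (n := n) hκ
  have hg := ng_pos (n := n) hκ
  have hr := one_lt_nr (n := n) hκ
  have hTr : CL.TP κ n ≤ nr κ n := by
    unfold nr
    have h5 : CL.TP κ n ≤ CL.TP κ n ^ 2 := Nat.le_self_pow (by norm_num) _
    have h6 : 1 * CL.TP κ n ^ 2 ≤ 6 * ng κ n * CL.TP κ n ^ 2 :=
      Nat.mul_le_mul_right _ (by omega)
    omega
  have hrW : nr κ n ≤ nr κ n ^ (ng κ n + 2) := Nat.le_self_pow (by omega) _
  have hgW : ng κ n + 2 < nr κ n ^ (ng κ n + 2) := Nat.lt_pow_self (by omega)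
  have hW : nr κ n ^ (ng κ n + 2) < A := hW
  have hpw : ∀ j, j ≤ ng κ n + 2 → nr κ n ^ j < A := fun j hj =>
    (Nat.pow_le_pow_right (by omega) hj).trans_lt hW
  have e0 : (mrg Sum.inl (fun _ => 0) fun _ => 0 : Rg ⊕ RP → ℕ) = fun _ => 0 := by
    rw [mrg_inl]
    funext q
    rcases q with q | q <;> rfl
  have r0 := RunA.renA_nc (ρ := Sum.inl) (φ := (id : Pr → Pr)) (body := body) Sum.inl_injective
    (RunA.mono_A hA0 (CL.run_initC (body := fun _ => Stmt.skip) (c := 0) hκ h1 h2 h3)) nc_initC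
    (fun _ => 0)
  rw [e0, mrg_inl, ← hn] at r0
  refine run_cons r0 ?_
  refine run_setR (CL.TP κ n) (by simp [CL.initS]) (by omega) ?_
  refine run_setR (ng κ n) (by simp [CL.initS, ng]) (by omega) ?_
  refine run_setR (nr κ n) ?_ (by omega) ?_
  · simp only [eval_add, eval_mul, eval_var, eval_ofNat, eval_one, Sum.elim_inr, upd_self, upd_ne,
      ne_eq, reduceCtorEq, not_false_eq_true, nr]
    ring
  refine run_setR (nN κ n) ?_ hNA ?_
  · simp only [eval_mul, eval_var, Sum.elim_inl, CL.initS, nN_eq]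
    ring
  refine run_setR 1 rfl (by omega) ?_
  refine run_setR (ng κ n + 2) (by simp) (by omega) ?_
  refine run_cons (RunA.loop (Sum.inr RP.i) _ (fun j => Sum.elim (CL.initS 0 κ n) (upd (upd (upd
    (upd (upd (upd (fun _ : RP => 0) .b (CL.TP κ n)) .g (ng κ n)) .r (nr κ n)) .N (nN κ n))
    .W (nr κ n ^ (ng κ n + 2 - j))) .i j)) (by simp) (ng κ n + 2) (fun j hj => ?_) ?_
    rfl) ?_
  · refine run_setR (nr κ n ^ (ng κ n + 2 - j)) ?_ (hpw _ (by omega)) ?_
    · simp only [eval_mul, eval_var, Sum.elim_inr, upd_self, upd_ne, ne_eq, reduceCtorEq,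
        not_false_eq_true]
      rw [← pow_succ, show ng κ n + 2 - (j + 1) + 1 = ng κ n + 2 - j by omega]
    · refine run_setR j (by simp) (by omega) (run_nil.cast ?_)
      congr 1
      funext q; cases q <;> simp
  · rw [Nat.sub_self, pow_zero]
  rw [Nat.sub_zero]
  refine run_setR (nr κ n ^ (ng κ n - 1)) ?_ (hpw _ (by omega)) ?_
  · simp only [eval_div, eval_var, Sum.elim_inr, upd_self, upd_ne, ne_eq, reduceCtorEq,
      not_false_eq_true]
    rw [show ng κ n + 2 = ng κ n - 1 + 1 + 1 + 1 by omega, pow_succ,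
      Nat.mul_div_cancel _ (by omega), pow_succ, Nat.mul_div_cancel _ (by omega), pow_succ,
      Nat.mul_div_cancel _ (by omega)]
  refine run_setR (nT c κ n) ?_ (by omega) ?_
  · simp [CL.initS, nT, Exp.eval]
  refine run_setR x0 ?_ (by omega) (run_nil.cast ?_)
  · rw [eval_renE]
    exact hx
  · congr 1
    funext q; cases q <;> simp [outQ, nW]

end

/-! ### The registers of the machine -/

/-- The initial program of the machine. -/
def iniOT {F : Type} (f₀ : F) (κ c K : ℕ) (startE : Exp Rg) : NStmt (CR ⊕ OL Rg) F :=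
  sqN [NC.ren nmP (fun _ => f₀) (iniQ κ c startE),
    asg (Sum.inr (.loc .cb)) (vr .rB),
    asg (Sum.inl .cB) (vr .rB),
    asg (Sum.inl .cT) (vr .rT),
    asg (Sum.inl .cK) (Exp.lit K),
    asg (Sum.inl .lev) (vr .rT),
    asg (Sum.inr .i) (vr .rT / vr .rB),
    Stmt.loop (Sum.inr .i) (sqN [
      asg (Sum.inr .AC) (vr .AC * vr .rN),
      asg (Sum.inr .i) (vr .i - 1)])]

/-- The registers for the operations; `AC = a`, `i = j`. -/
def layQ {Y : Type} (pv : Y → ℕ) (B T b g a j : ℕ) : OL Y → ℕ := fun r => match r with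
  | .AC => a
  | .i => j
  | .rB => B
  | .rT => T
  | .rN => b ^ g
  | .rW => RR 6 b g ^ (g + 2)
  | .loc y => layRd b g y
  | .ex y => pv y
  | _ => 0

theorem layQ_AC {Y : Type} (pv : Y → ℕ) (B T b g a j a' : ℕ) :
    upd (layQ pv B T b g a j) .AC a' = layQ pv B T b g a' j := by
  funext r; cases r <;> simp [layQ]

theorem layQ_i {Y : Type} (pv : Y → ℕ) (B T b g a j j' : ℕ) :
    upd (layQ pv B T b g a j) .i j' = layQ pv B T b g a j' := by
  funext r; cases r <;> simp [layQ]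

/-- The time of the initial program. -/
noncomputable def tIni (κ c : ℕ) (startE : Exp Rg) (n : ℕ) : ℕ :=
  tb ((2 ^ CL.eP c κ n) ^ Nat.card (Rg ⊕ RP)) (iniQ κ c startE) + 6 * nT c κ n + 20

section

variable {α F : Type} {X : List α} {cc : Cell α → ℕ} {A : ℕ} {body : F → NStmt (CR ⊕ OL Rg) F}
  {c κ K : ℕ}

/-- The small numbers. -/
theorem small_le (hc : 1 ≤ c) (hκ : 64 ≤ κ) (n : ℕ) : 2 ^ CL.eP 0 κ n ≤ 2 ^ CL.eP c κ n ∧
    nW κ n < 2 ^ CL.eP c κ n ∧ nN κ n < 2 ^ CL.eP c κ n ∧ nT c κ n < 2 ^ CL.eP c κ n := by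
  have hm := m_ge (n := n) hκ
  have e1 : CL.eP 0 κ n ≤ CL.eP c κ n := by
    unfold CL.eP
    exact Nat.mul_le_mul_right _ (by omega)
  have e2 : 300 * mP κ n ≤ CL.eP c κ n := CL.e_ge
  have e3 : c + 3 + mP κ n ≤ CL.eP c κ n := by
    unfold CL.eP
    nlinarith [Nat.zero_le (c * mP κ n), Nat.mul_le_mul_left c hm]
  refine ⟨Nat.pow_le_pow_right (by norm_num) e1, ?_, ?_, ?_⟩
  · exact (nW_le hκ).trans_lt (Nat.pow_lt_pow_right (by norm_num) (by omega))
  · exact (nN_le hκ).trans_lt (Nat.pow_lt_pow_right (by norm_num) (by omega))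
  · have h1 := nT_le (n := n) hc hκ
    have h4 : c ≤ 2 ^ c := Nat.lt_two_pow_self.le
    have h5 : mP κ n ≤ 2 ^ mP κ n := Nat.lt_two_pow_self.le
    calc nT c κ n < nT c κ n + 1 := Nat.lt_succ_self _
      _ ≤ 4 * c * mP κ n := h1
      _ ≤ 2 ^ 2 * 2 ^ c * 2 ^ mP κ n := by gcongr; norm_num
      _ = 2 ^ (2 + c + mP κ n) := by rw [← pow_add, ← pow_add]
      _ ≤ 2 ^ CL.eP c κ n := Nat.pow_le_pow_right (by norm_num) (by omega)

/-- **The initial program, with time.** -/
theorem run_iniOT (f₀ : F) (hc : 1 ≤ c) (hκ : 64 ≤ κ) (h1 : cc Cell.right = 1)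
    (h2 : ∀ a, 2 ≤ cc (Cell.letter a)) (h3 : ∀ d, cc d ≤ κ) {startE : Exp Rg}
    (hA : nA c κ X.length ≤ A) (hK : K < A)
    (hN : 0 < CL.TP κ X.length ^ ng κ X.length)
    (x0 : Fin (CL.TP κ X.length ^ ng κ X.length))
    (hx : startE.eval X cc (CL.initS 0 κ X.length) = x0)
    (hT : IsTop (CL.TP κ X.length) (nT c κ X.length)) (K' k : ℕ) (u u' : ℕ → Bool) :
    RunT X cc A body k (tIni κ c startE X.length) (iniOT f₀ κ c K startE) (fun _ => 0) u
      (Sum.elim (iniCR (CL.TP κ X.length) (nT c κ X.length) K)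
        (lay (CL.initS 0 κ X.length) K' (CL.TP κ X.length) (nT c κ X.length)
          (st0 hN (nT c κ X.length) x0 u'))) u := by
  obtain ⟨s1, s2, s3, s4⟩ := small_le hc hκ X.length
  have hTP := CL.T_ge (n := X.length) hκ
  have hTA := (nT_lin_le (n := X.length) hc hκ (a := 1) (by norm_num)).trans hA
  rw [one_mul] at hTA
  have hTm := m_le_Tm (n := X.length) hκ
  have hA1 : 2 ^ CL.eP c κ X.length ≤ A := by
    refine (le_nA ?_).trans hA
    unfold CL.eP
    exact Nat.mul_le_mul (Nat.mul_le_mul_right _ (by norm_num)) hTm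
  have hTPA : CL.TP κ X.length < A := by
    have h7 : CL.TP κ X.length < 2 ^ CL.TP κ X.length := Nat.lt_two_pow_self
    have h8 : 2 ^ CL.TP κ X.length ≤ nA c κ X.length := le_nA (by
      have h9 := m_ge (n := X.length) hκ
      have h10 : CL.TP κ X.length ≤ CL.TP κ X.length * mP κ X.length :=
        Nat.le_mul_of_pos_right _ (by omega)
      nlinarith [Nat.zero_le (c * (CL.TP κ X.length * mP κ X.length))])
    omega
  have hT1 := nT_succ (n := X.length) hc hκ
  have hTd : nT c κ X.length / CL.TP κ X.length + 1 ≤ (nT c κ X.length + 1) / CL.TP κ X.length := by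
    rw [nT_div hc hκ]
    refine Nat.succ_le_of_lt ((Nat.div_lt_iff_lt_mul (by omega)).2 ?_)
    have h5 : c * CL.TP κ X.length * CL.TP κ X.length =
      c * (CL.TP κ X.length * CL.TP κ X.length) := Nat.mul_assoc _ _ _
    omega
  have hpN : ∀ j, j ≤ nT c κ X.length / CL.TP κ X.length →
      (x0 : ℕ) * nN κ X.length ^ j < A := by
    intro j hj
    calc (x0 : ℕ) * nN κ X.length ^ j < nN κ X.length * nN κ X.length ^ j :=
          Nat.mul_lt_mul_of_pos_right x0.2 (Nat.pow_pos hN)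
      _ = nN κ X.length ^ (j + 1) := by ring
      _ ≤ nN κ X.length ^ ((nT c κ X.length + 1) / CL.TP κ X.length) :=
          Nat.pow_le_pow_right hN (by omega)
      _ ≤ nA c κ X.length := nN_pow_le hc hκ
      _ ≤ A := hA
  -- the small parameters
  have r0 := (RunA.time (ρ := nmP) (φ := fun _ : Pr => f₀) (body := body) nmP_inj
    (iniQ κ c startE) (nocall_of_nc nc_iniQ) k
    (run_iniQ (body := fun _ => Stmt.skip) hκ h1 h2 h3 s1 s2 s3 s4 hx x0.2)
    (fun _ => Nat.pow_pos (by norm_num)) (fun _ => 0) u).mono le_rfl le_rfl hA1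
  rw [mrg_nmP, mrg_nmP] at r0
  have e0 : ∀ l : OL Rg → ℕ, l = (fun _ => 0) →
      (Sum.elim (fun _ => 0) l : CR ⊕ OL Rg → ℕ) = fun _ => 0 := by
    rintro _ rfl
    funext q
    rcases q with q | q <;> rfl
  rw [e0 _ (by funext q; cases q <;> first | rfl | (rename_i y; cases y <;> rfl))] at r0
  refine RunT.cons r0 ?_ (m := 6 * nT c κ X.length + 19) (by unfold tIni; omega)
  have hloop := RunT.seqLoop (x := X) (cc := cc) (A := A) (body := body) (k := k) (c := 5)
    (Sum.inr (.i : OL Rg)) (sqN [asg (Sum.inr .AC) (vr .AC * vr .rN),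
      asg (Sum.inr .i) (vr .i - 1)])
    (fun j => Sum.elim (iniCR (CL.TP κ X.length) (nT c κ X.length) K)
      (layQ (CL.initS 0 κ X.length) (CL.TP κ X.length) (nT c κ X.length) (CL.TP κ X.length)
        (ng κ X.length) ((x0 : ℕ) * nN κ X.length ^ j)
        (nT c κ X.length / CL.TP κ X.length - j))) (fun _ => u)
    (nT c κ X.length / CL.TP κ X.length) (fun j hj => by
      show nT c κ X.length / CL.TP κ X.length - j ≠ 0
      omega) (by
      show nT c κ X.length / CL.TP κ X.length - nT c κ X.length / CL.TP κ X.length = 0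
      omega) (fun j hj => by
      refine RunT.set ((x0 : ℕ) * nN κ X.length ^ (j + 1)) ?_ (hpN _ (by omega))
        (RunT.set (nT c κ X.length / CL.TP κ X.length - (j + 1)) ?_ ?_
        ((RunT.nil (n := 0)).cast ?_))
      · show (x0 : ℕ) * nN κ X.length ^ j * CL.TP κ X.length ^ ng κ X.length = _
        rw [pow_succ, ← Nat.mul_assoc]
        rfl
      · rw [upd_inr, layQ_AC]
        show nT c κ X.length / CL.TP κ X.length - j - 1 = _
        omega
      · have := Nat.div_le_self (nT c κ X.length) (CL.TP κ X.length)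
        omega
      · rw [upd_inr, layQ_AC, upd_inr, layQ_i])
  have hTT := Nat.div_le_self (nT c κ X.length) (CL.TP κ X.length)
  have hfin : RunT X cc A body k (6 * nT c κ X.length + 7) (sqN [
      asg (Sum.inr .i) (vr .rT / vr .rB),
      Stmt.loop (Sum.inr .i) (sqN [
        asg (Sum.inr .AC) (vr .AC * vr .rN),
        asg (Sum.inr .i) (vr .i - 1)])])
      (Sum.elim (iniCR (CL.TP κ X.length) (nT c κ X.length) K)
        (layQ (CL.initS 0 κ X.length) (CL.TP κ X.length) (nT c κ X.length) (CL.TP κ X.length)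
        (ng κ X.length) x0 0)) u
      (Sum.elim (iniCR (CL.TP κ X.length) (nT c κ X.length) K)
        (lay (CL.initS 0 κ X.length) K' (CL.TP κ X.length) (nT c κ X.length)
          (st0 hN (nT c κ X.length) x0 u'))) u := by
    refine RunT.set (nT c κ X.length / CL.TP κ X.length) rfl (by omega) ?_
    refine RunT.cons (hloop.congr_left ?_) ((RunT.nil (n := 0)).cast ?_) (by omega)
    · rw [upd_inr, layQ_i, pow_zero, Nat.mul_one, Nat.sub_zero]
    · rw [lay_st0 (by omega) hT hN, Nat.sub_self]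
      congr 1
      funext r
      cases r <;> rfl
  refine (RunT.set (CL.TP κ X.length) rfl hTPA (RunT.set (CL.TP κ X.length) ?_ hTPA
    (RunT.set (nT c κ X.length) ?_ (by omega) (RunT.set K rfl hK
    (RunT.set (nT c κ X.length) ?_ (by omega) (hfin.congr_left ?_)))))).mono le_rfl (by omega) le_rfl
  · simp only [eval_var, upd_inr, Sum.elim_inr]
    rw [upd_ne (by simp)]
    rfl
  · simp only [eval_var, upd_inr, upd_inl, Sum.elim_inr]
    rw [upd_ne (by simp)]
    rfl
  · simp only [eval_var, upd_inr, upd_inl, Sum.elim_inr]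
    rw [upd_ne (by simp)]
    rfl
  · simp only [upd_inr, upd_inl]
    congr 1
    · funext q
      cases q <;> simp [iniCR]
    · funext q
      cases q with
      | loc y => cases y <;> simp [layRd, outQ, nr, layQ]
      | AC => simp [outQ, layQ]
      | rN => simp [outQ, nN, layQ]
      | rW => simp [outQ, nW, nr, layQ]
      | rB => simp [outQ, layQ]
      | rT => simp [outQ, layQ]
      | AR => simp [layQ]
      | AT => simp [layQ]
      | AD => simp [layQ]
      | fl => simp [layQ]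
      | pw => simp [layQ]
      | i => simp [outQ, layQ]
      | ex r => simp [layQ]

end

/-- The time of the initial program is polynomial. -/
theorem tIni_le {c κ : ℕ} (hκ : 64 ≤ κ) (startE : Exp Rg) : NP.PolyB (tIni κ c startE) :=
  ((NP.PolyB.tb (NP.PolyB.states (R := Rg ⊕ RP) (NP.two_pow_m hκ (300 * (c + 1))))
    (iniQ κ c startE)).add ((NP.PolyB.const 6).mul
    ((NP.polyB_top (c := c) hκ).mono fun _ => Nat.le_succ _))).add (NP.PolyB.const 20)

end Pool.Agent.Lib.MP_9277c3_lc.NS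
end

section
/-!
# The time of the machine is bounded by a polynomial
-/
namespace Pool.Agent.Lib.MP_9277c3_lc.NP

open CM CL NS NC

/-- The time of the body of the machine on the top level. -/
theorem polyB_bt {c κ : ℕ} (hc : 1 ≤ c) (hκ : 64 ≤ κ) (K : ℕ) {τ₀ : ℕ → ℕ} (h : PolyB τ₀) :
    PolyB fun n => NS.bt K (τ₀ n) (nT c κ n) := by
  have h1 : PolyB fun n => 2 * ((7 * τ₀ n + 80) * (K + 1) + (19 * τ₀ n + 200)) *
      (2 * K + 1) ^ (nT c κ n + 1) := by
    refine PolyB.mul (PolyB.mul (PolyB.const 2) (PolyB.add (PolyB.mul (PolyB.add (PolyB.mul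
      (PolyB.const 7) h) (PolyB.const 80)) (PolyB.const (K + 1))) (PolyB.add (PolyB.mul
      (PolyB.const 19) h) (PolyB.const 200)))) (polyB_rounds hc hκ _)
  refine h1.mono fun n => ?_
  unfold NS.bt
  exact Nat.mul_le_mul_left _ (Nat.pow_le_pow_right (by omega) (Nat.le_succ _))

/-- The time of the whole program. -/
theorem polyB_total {c κ : ℕ} (hc : 1 ≤ c) (hκ : 64 ≤ κ) (K : ℕ) {τ₀ τ₁ : ℕ → ℕ} (h : PolyB τ₀)
    (h' : PolyB τ₁) : PolyB fun n => τ₁ n + NS.bt K (τ₀ n) (nT c κ n) + 10 :=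
  (h'.add (polyB_bt hc hκ K h)).add (PolyB.const 10)

/-- The time of the machine. -/
theorem polyB_machine {c κ : ℕ} (hκ : 64 ≤ κ) (c₀ : ℕ) {τ : ℕ → ℕ} (h : PolyB τ) :
    PolyB fun n => c₀ * (τ n + 1) * (Nat.log 2 (nA c κ n) + 1) ^ 3 * (n + 2) :=
  (((PolyB.const c₀).mul h.succ).mul ((polyB_log_A hκ).succ.pow 3)).mul
    (PolyB.id.add (PolyB.const 2))

end Pool.Agent.Lib.MP_9277c3_lc.NP
end

section
/-!
# The time of the operations is polynomial
-/
set_option autoImplicit false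

namespace Pool.Agent.Lib.MP_9277c3_lc.NP

open CM CL NC NS

variable {c κ : ℕ}

theorem polyB_tauO (hκ : 64 ≤ κ) (K : ℕ) :
    PolyB fun n => tauO K (TP κ n) (nT c κ n) (TP κ n) (ng κ n) := by
  have hN : PolyB fun n => TP κ n ^ ng κ n := polyB_N hκ
  have hW : PolyB fun n => wN (TP κ n) (ng κ n) := polyB_W hκ
  have hT : PolyB fun n => nT c κ n + 1 := polyB_top hκ
  have h2 : PolyB fun n => tau2 (TP κ n) (ng κ n) :=
    ((((hW.pow _).tb _).add ((hW.pow _).tb _)).add ((hW.pow _).tb _))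
  refine PolyB.mono (((((((PolyB.const 8).mul ((hN.sub fun _ => 1).size)).add
    ((PolyB.const 12).mul (((PolyB.const 2).mul (polyB_T hκ)).mul (PolyB.const (K + 1))))).add
    ((PolyB.const 12).mul (hT.mul (PolyB.const (K + 1))))).add
    ((PolyB.const 6).mul hT)).add ((PolyB.const 6).mul (hT.div (TP κ)))).add h2 |>.add
    (PolyB.const 100)) fun n => ?_
  exact le_rfl

end Pool.Agent.Lib.MP_9277c3_lc.NP
end

section
/-!
# One-way deterministic pushdown automata and unambiguous machines in space `(log n) ^ (3 / 2)` and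
polynomial time
-/
set_option autoImplicit false
set_option linter.constructorNameAsVariable false

namespace Pool.Agent.Lib.MP_9277c3_lc

/-- More time may be allowed. -/
theorem NTM.TimeIn.mono {α : Type} {A : NTM α} {s t : ℕ → ℕ} (h : A.TimeIn s)
    (hst : ∀ n, s n ≤ t n) : A.TimeIn t := fun x m f h0 h1 => (h x m f h0 h1).trans (hst _)

namespace NS

open CM NC CL Dp NP

section

variable {α : Type} {M : DPDA α} (C : Cd M)

/-- The time of one operation. -/
noncomputable def tauX (c κ n : ℕ) : ℕ := tauO 5 (TP κ n) (nT c κ n) (TP κ n) (ng κ n) + 1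

/-- The time of the whole program. -/
noncomputable def tauA (a n : ℕ) : ℕ :=
  tIni (kap C a) (2 * a + 1) (startR C a) n +
    bt 5 (tauX (2 * a + 1) (kap C a) n) (nT (2 * a + 1) (kap C a) n) + 10

theorem polyB_tauA (a : ℕ) : PolyB (tauA C a) :=
  polyB_total (c := 2 * a + 1) (by omega) (kap_ge C a) 5
    ((polyB_tauO (c := 2 * a + 1) (kap_ge C a) 5).add (PolyB.const 1))
    (tIni_le (kap_ge C a) (startR C a))

/-- **The machine for a test of the value, with polynomial time.** -/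
theorem exists_machineXT [Finite α] (a : ℕ) (sch : OF → NStmt (CR ⊕ OL Rg) CF) :
    ∃ c e : ℕ, ∀ (L : List α → Prop) (acc : ∀ (x : List α) (N : ℕ), Fin N → Prop)
      (hlt : ∀ x : List α, x0N C a x < TP (kap C a) x.length ^ ng (kap C a) x.length)
      (_hs : ∀ (x : List α) (b g B T A k τ : ℕ) (body : CF → NStmt (CR ⊕ OL Rg) CF)
        (pv : Rg → ℕ) (hN : 0 < b ^ g), pv .cn = x.length + 1 → b ^ g ≤ A → 2 ≤ A → 1 ≤ τ →
        SchOpsT x C.cc A body (mkP (schX C a x (b ^ g) hN) B T (acc x (b ^ g)) hN)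
          (RepO pv (schX C a x (b ^ g) hN).K B T) sch k τ)
      (_hL : ∀ x : List α, L x ↔ acc x (TP (kap C a) x.length ^ ng (kap C a) x.length)
        ((schX C a x _ (posN (kap_ge C a) x.length)).val (nT (2 * a + 1) (kap C a) x.length)
          ⟨x0N C a x, hlt x⟩)),
      ∃ A : NTM α, (A.AcceptsIn L fun n =>
        c * (Nat.log 2 (n + 2) * (Nat.sqrt (Nat.log 2 (n + 2)) + 1))) ∧
        (A.TimeIn fun n => (n + 2) ^ e) ∧ A.Unambiguous := by
  obtain ⟨c₀, hc₀⟩ := exists_machineOT (Y := Rg) C.cc 5 sch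
    (iniOT CF.seg (kap C a) (2 * a + 1) 5 (startR C a))
  have hκ := kap_ge C a
  have hc : 1 ≤ 2 * a + 1 := by omega
  obtain ⟨e, he⟩ := polyB_machine (c := 2 * a + 1) hκ c₀ (polyB_tauA C a)
  refine ⟨c₀ * ((1000 * ((2 * a + 1) + 1) + 28 * (2 * a + 1) + 0 + 1) *
    (2 * (5 * Nat.log 2 (kap C a) + 22) ^ 2)), e, fun L acc hlt hs hL => ?_⟩
  obtain ⟨A, hA, hT, hU⟩ := hc₀ L (fun n => nA (2 * a + 1) (kap C a) n)
    (fun n => 7 * (nT (2 * a + 1) (kap C a) n + 1)) (tauA C a) (fun n => two_le_nA hκ) fun x => ⟨{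
      b := TP (kap C a) x.length
      g := ng (kap C a) x.length
      B := TP (kap C a) x.length
      T := nT (2 * a + 1) (kap C a) x.length
      hN := posN hκ x.length
      S := schX C a x _ (posN hκ x.length)
      acc := acc x _
      pv := CL.initS 0 (kap C a) x.length
      x₀ := ⟨x0N C a x, hlt x⟩
      k₀ := 0
      τ₀ := tauX (2 * a + 1) (kap C a) x.length
      τ₁ := tIni (kap C a) (2 * a + 1) (startR C a) x.length
      hτ₀ := Nat.le_succ _
      hτ := le_rfl
      hK := rfl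
      hK1 := by
        show 1 ≤ 5
        norm_num
      bnd := bndOK hc hκ x.length
      two := two_powN _ _
      hA := nT_lt_A hc hκ x.length
      hk := by
        show 0 + _ * (5 + 2) ≤ _
        omega
      hT := isTopT hc hκ x.length
      sops := hs x _ _ _ _ _ _ _ _ _ _ rfl (by
        have h1 : nN (kap C a) x.length ^ 1 ≤ nA (2 * a + 1) (kap C a) x.length :=
          nN_pow_le' hκ (by norm_num)
        rw [pow_one] at h1
        exact h1) (two_le_nA hκ) (Nat.le_add_left _ _)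
      init := fun u => ⟨iniCR (TP (kap C a) x.length) (nT (2 * a + 1) (kap C a) x.length) 5, u,
        run_iniOT CF.seg hc hκ rfl (fun d => by simp [Cd.cc]) (cc_le_kap C a) le_rfl
          (by have := nT_lt_A hc hκ x.length; omega) (posN hκ x.length) ⟨x0N C a x, hlt x⟩
          (eval_startR C a x) (isTopT hc hκ x.length) 5 _ u u,
        rfl, rfl, rfl, rfl⟩
      acc_iff := hL x }⟩
  refine ⟨A, hA.mono fun n => ?_, hT.mono fun n => ?_, hU⟩
  · exact space_le hc hκ c₀ 0
  · exact he n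

/-- The machines for the language and for its complement, with polynomial time. -/
theorem exists_machinesT [Finite α] (a : ℕ)
    (hlt : ∀ x : List α, x0N C a x < TP (kap C a) x.length ^ ng (kap C a) x.length)
    (hL : ∀ x : List α, M.Accepts x ↔ accXP C a x
        ((schX C a x _ (posN (kap_ge C a) x.length)).val (nT (2 * a + 1) (kap C a) x.length)
          ⟨x0N C a x, hlt x⟩)) :
    ∃ (c e : ℕ) (A₁ A₂ : NTM α),
      ((A₁.AcceptsIn M.Accepts fun n =>
        c * (Nat.log 2 (n + 2) * (Nat.sqrt (Nat.log 2 (n + 2)) + 1))) ∧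
        (A₁.TimeIn fun n => (n + 2) ^ e) ∧ A₁.Unambiguous) ∧
      (A₂.AcceptsIn (fun x => ¬M.Accepts x) fun n =>
        c * (Nat.log 2 (n + 2) * (Nat.sqrt (Nat.log 2 (n + 2)) + 1))) ∧
        (A₂.TimeIn fun n => (n + 2) ^ e) ∧ A₂.Unambiguous := by
  obtain ⟨c₁, e₁, h₁⟩ := exists_machineXT C a (schP C Rg.cn a)
  obtain ⟨c₂, e₂, h₂⟩ := exists_machineXT C a (schPN C Rg.cn a)
  obtain ⟨A₁, hA₁, hT₁, hU₁⟩ := h₁ M.Accepts (fun x N y => accXP C a x y) hlt
    (fun x b g B T A k τ body pv hN h1 h2 h3 h4 => schOpsT C h4 h1 h2 h3 a) hL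
  obtain ⟨A₂, hA₂, hT₂, hU₂⟩ := h₂ (fun x => ¬M.Accepts x) (fun x N y => ¬accXP C a x y) hlt
    (fun x b g B T A k τ body pv hN h1 h2 h3 h4 => schOpsNT C h4 h1 h2 h3 a)
    (fun x => not_congr (hL x))
  exact ⟨c₁ + c₂, e₁ + e₂, A₁, A₂,
    ⟨hA₁.mono fun n => Nat.mul_le_mul_right _ (Nat.le_add_right _ _),
      hT₁.mono fun n => Nat.pow_le_pow_right (by omega) (Nat.le_add_right _ _), hU₁⟩,
    hA₂.mono fun n => Nat.mul_le_mul_right _ (Nat.le_add_left _ _),
    hT₂.mono fun n => Nat.pow_le_pow_right (by omega) (Nat.le_add_left _ _), hU₂⟩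

end

/-- **Every one-way deterministic pushdown automaton language and its complement are accepted by
unambiguous nondeterministic Turing machines in space `O((log n) ^ (3 / 2))` and polynomial
time.** -/
theorem dpda_unambiguous_time (α : Type) [Finite α] (M : DPDA α)
    (hM : ∀ q c X q' mv β, M.next q c X = some (q', mv, β) → mv ≠ Move.left) :
    ∃ (c e : ℕ) (A₁ A₂ : NTM α),
      ((A₁.AcceptsIn M.Accepts fun n =>
        c * (Nat.log 2 (n + 2) * (Nat.sqrt (Nat.log 2 (n + 2)) + 1))) ∧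
        (A₁.TimeIn fun n => (n + 2) ^ e) ∧ A₁.Unambiguous) ∧
      (A₂.AcceptsIn (fun x => ¬M.Accepts x) fun n =>
        c * (Nat.log 2 (n + 2) * (Nat.sqrt (Nat.log 2 (n + 2)) + 1))) ∧
        (A₂.TimeIn fun n => (n + 2) ^ e) ∧ A₂.Unambiguous := by
  obtain ⟨C⟩ := exists_Cd M
  obtain ⟨a, ha⟩ := accepts_iff_val C hM
  refine exists_machinesT C a (fun x => PkV.x0_lt C a x _ (b8_pow_le C a x)) fun x => ?_
  rw [ha x (nT (2 * a + 1) (kap C a) x.length) (top_ge (kap_ge C a) a)]
  exact (PkV.accXP_iff C a x _ _ (b8_pow_le C a x)).symm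

end NS

end Pool.Agent.Lib.MP_9277c3_lc
end
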